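import Pool.Agent.Q145.LQ.Stm

/-!
Project LQ (helper145), MOM1Q: the first moment.
-/

set_option autoImplicit false

namespace Pool.Agent.Q223.LQ

open Finset Filter
open Pool.Agent.Q145.SZ Pool.Agent.Q145.LQ

theorem wt_nonneg (u : ℕ) : 0 ≤ wt u := by
  unfold wt
  split_ifs with h
  · exact Real.log_natCast_nonneg u
  · exact le_rfl

theorem prod_lower {ι : Type*} (T : Finset ι) (x : ι → ℝ) (hx : ∀ i, 0 ≤ x i) :
    1 - ∑ i ∈ T, |x i - 1| ≤ ∏ i ∈ T, x i := by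
  classical
  induction T using Finset.induction_on with
  | empty => simp
  | insert a T ha ih =>
    rw [sum_insert ha, prod_insert ha]
    have hP : 0 ≤ ∏ i ∈ T, x i := prod_nonneg fun i _ => hx i
    have hS : 0 ≤ ∑ i ∈ T, |x i - 1| := sum_nonneg fun i _ => abs_nonneg _
    have h1 := abs_nonneg (x a - 1)
    have h2 := neg_abs_le (x a - 1)
    have h3 := hx a
    rcases le_or_gt (1 - ∑ i ∈ T, |x i - 1|) 0 with h | h
    · have := mul_nonneg h3 hP
      linarith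
    · have h4 := mul_le_mul_of_nonneg_left ih h3
      nlinarith

section
variable {W : ℕ} [NeZero W]

omit [NeZero W] in
theorem A1_nonneg (X n : ℕ) (β : ZMod W) : 0 ≤ A1 X n β := by
  unfold A1
  exact div_nonneg (sum_nonneg fun s _ => wt_nonneg _) (Nat.cast_nonneg _)

omit [NeZero W] in
theorem E_eq {K : ℕ} (Y : ℕ) (H : Fin K → ℕ) (q : Fin K → Polynomial ℤ) (b : Fin K → ZMod W) :
    (∑ s ∈ SbQ H b, wcQ Y q s) / ((SbQ H b).card : ℝ) =
      ∑ n ∈ Ioc Y (2 * Y), ∏ i, A1 (H i) (vq (q i) n) (b i) := by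
  have h1 : ∑ s ∈ SbQ H b, wcQ Y q s =
      ∑ n ∈ Ioc Y (2 * Y), ∏ i, ∑ s ∈ cls (H i) (b i), wt (vq (q i) n + s) := by
    unfold wcQ
    rw [sum_comm]
    refine sum_congr rfl fun n _ => ?_
    unfold SbQ
    rw [prod_univ_sum]
  rw [h1, sum_div]
  refine sum_congr rfl fun n _ => ?_
  unfold A1 SbQ
  rw [Fintype.card_piFinset, Nat.cast_prod, prod_div_distrib]

theorem class_count (X : ℕ) (c : ZMod W) :
    (X : ℝ) / W - 1 ≤ (((Ioc X (2 * X)).filter fun n : ℕ => (n : ZMod W) = c).card : ℝ) ∧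
    (((Ioc X (2 * X)).filter fun n : ℕ => (n : ZMod W) = c).card : ℝ) ≤ (X : ℝ) / W + 1 := by
  have hW : 0 < W := Nat.pos_of_ne_zero (NeZero.ne W)
  have h1 : (Ioc X (2 * X)).filter (fun n : ℕ => (n : ZMod W) = c) =
      (Ioc X (2 * X)).filter (fun n : ℕ => n ≡ c.val [MOD W]) := by
    refine filter_congr fun n _ => ?_
    rw [← ZMod.natCast_eq_natCast_iff, ZMod.natCast_zmod_val]
  have h2 := Nat.Ioc_filter_modEq_card X (2 * X) hW c.val
  rw [h1]
  have hWq : (0 : ℚ) < W := by exact_mod_cast hW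
  have e2 := Int.sub_one_lt_floor ((((2 * X : ℕ) : ℚ) - c.val) / W)
  have e3 := Int.floor_le (((X : ℚ) - c.val) / W)
  have e2' := Int.sub_one_lt_floor (((X : ℚ) - c.val) / W)
  have e3' := Int.floor_le ((((2 * X : ℕ) : ℚ) - c.val) / W)
  have e4 : (((2 * X : ℕ) : ℚ) - c.val) / W - ((X : ℚ) - c.val) / W = (X : ℚ) / W := by
    push_cast
    field_simp
    ring
  have hXW : (0 : ℚ) ≤ (X : ℚ) / W := by positivity
  have h4 : ((X : ℚ) / W - 1 : ℚ) ≤
      (((Ioc X (2 * X)).filter (fun n : ℕ => n ≡ c.val [MOD W])).card : ℚ) := by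
    have h3 : (⌊(((2 * X : ℕ) : ℚ) - c.val) / W⌋ - ⌊((X : ℚ) - c.val) / W⌋ : ℤ) ≤
        (((Ioc X (2 * X)).filter (fun n : ℕ => n ≡ c.val [MOD W])).card : ℤ) := by
      rw [h2]
      exact le_max_left _ _
    have e1 : ((⌊(((2 * X : ℕ) : ℚ) - c.val) / W⌋ : ℤ) : ℚ) - ((⌊((X : ℚ) - c.val) / W⌋ : ℤ) : ℚ) ≤
      (((Ioc X (2 * X)).filter (fun n : ℕ => n ≡ c.val [MOD W])).card : ℚ) := by
      exact_mod_cast h3
    linarith
  have h4' : (((Ioc X (2 * X)).filter (fun n : ℕ => n ≡ c.val [MOD W])).card : ℚ) ≤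
      ((X : ℚ) / W + 1 : ℚ) := by
    have h3 : ((((Ioc X (2 * X)).filter (fun n : ℕ => n ≡ c.val [MOD W])).card : ℤ) : ℚ) =
        max (((⌊(((2 * X : ℕ) : ℚ) - c.val) / W⌋ : ℤ) : ℚ) - ((⌊((X : ℚ) - c.val) / W⌋ : ℤ) : ℚ))
          0 := by
      rw [h2]
      push_cast
      rfl
    have h5 : (((Ioc X (2 * X)).filter (fun n : ℕ => n ≡ c.val [MOD W])).card : ℚ) =
        ((((Ioc X (2 * X)).filter (fun n : ℕ => n ≡ c.val [MOD W])).card : ℤ) : ℚ) := by
      push_cast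
      rfl
    rw [h5, h3]
    exact max_le (by linarith) (by linarith)
  have h5 := (Rat.cast_le (K := ℝ)).2 h4
  have h5' := (Rat.cast_le (K := ℝ)).2 h4'
  push_cast at h5 h5'
  exact ⟨h5, h5'⟩

/-- the number of points of an interval in a set of classes -/
theorem set_count (X : ℕ) (G : Finset (ZMod W)) :
    (G.card : ℝ) * ((X : ℝ) / W - 1) ≤
      (((Ioc X (2 * X)).filter fun n : ℕ => (n : ZMod W) ∈ G).card : ℝ) ∧
    (((Ioc X (2 * X)).filter fun n : ℕ => (n : ZMod W) ∈ G).card : ℝ) ≤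
      (G.card : ℝ) * ((X : ℝ) / W + 1) := by
  classical
  have e1 : (Ioc X (2 * X)).filter (fun n : ℕ => (n : ZMod W) ∈ G) =
      G.biUnion fun c => (Ioc X (2 * X)).filter fun n : ℕ => (n : ZMod W) = c := by
    ext n
    simp only [mem_filter, mem_biUnion]
    constructor
    · rintro ⟨h, h'⟩
      exact ⟨_, h', h, rfl⟩
    · rintro ⟨c, hc, h, rfl⟩
      exact ⟨h, hc⟩
  have e2 : ((G.biUnion fun c => (Ioc X (2 * X)).filter fun n : ℕ => (n : ZMod W) = c).card : ℝ) =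
      ∑ c ∈ G, (((Ioc X (2 * X)).filter fun n : ℕ => (n : ZMod W) = c).card : ℝ) := by
    rw [card_biUnion, Nat.cast_sum]
    intro c _ c' _ hcc'
    rw [Function.onFun, disjoint_left]
    intro n hn hn'
    rw [mem_filter] at hn hn'
    exact hcc' (hn.2.symm.trans hn'.2)
  rw [e1, e2]
  constructor
  · calc (G.card : ℝ) * ((X : ℝ) / W - 1) = ∑ _c ∈ G, ((X : ℝ) / W - 1) := by
          rw [sum_const, nsmul_eq_mul]
      _ ≤ _ := sum_le_sum fun c _ => (class_count X c).1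
  · calc _ ≤ ∑ _c ∈ G, ((X : ℝ) / W + 1) := sum_le_sum fun c _ => (class_count X c).2
      _ = _ := by rw [sum_const, nsmul_eq_mul]

end

open Classical in
theorem t_MOM1Q : S_MOM1Q := by
  intro d C hC hLAW W _ Y K H q δ hsq hWY hWH hδ hdeg hval hA
  have hW : 0 < W := Nat.pos_of_ne_zero (NeZero.ne W)
  have hWr : (0 : ℝ) < W := by exact_mod_cast hW
  have hY : 0 < Y := lt_of_lt_of_le hW hWY
  have hYr : (0 : ℝ) < Y := by exact_mod_cast hY
  have hφ : (0 : ℝ) < Nat.totient W := by exact_mod_cast Nat.totient_pos.2 hW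
  obtain ⟨v, hv⟩ : ∃ v : ℝ, v = vv W := ⟨_, rfl⟩
  have hv0 : 0 < v := by rw [hv]; exact div_pos hWr hφ
  obtain ⟨R, hR⟩ : ∃ R : ℝ, R = ((AdQ W q).card : ℝ) := ⟨_, rfl⟩
  have hR0 : 0 ≤ R := by rw [hR]; positivity
  rw [← hv] at hA
  rw [← hR]
  have hw0 : ∀ (n : ZMod W) (b : Fin K → ZMod W), 0 ≤ w1q q n b := by
    intro n b
    unfold w1q
    split_ifs <;> positivity
  -- one tuple of classes
  have hone : ∀ b ∈ AdQ W q, (W : ℝ) / Y * ∑ n ∈ Ioc Y (2 * Y),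
      (w1q q (n : ZMod W) b * (1 - ∑ i, |A1 (H i) (vq (q i) n) (b i) / v - 1|)) ≤
      (∑ s ∈ SbQ H b, wcQ Y q s / MbQ Y q b) / (SbQ H b).card := by
    intro b hb
    unfold AdQ at hb
    rw [mem_filter] at hb
    have hg : (0 : ℝ) < (GQ q b).card := by exact_mod_cast hb.2.card_pos
    have h1 : (∑ s ∈ SbQ H b, wcQ Y q s / MbQ Y q b) / ((SbQ H b).card : ℝ) =
        (∑ n ∈ Ioc Y (2 * Y), ∏ i, A1 (H i) (vq (q i) n) (b i)) / MbQ Y q b := by
      rw [← sum_div, div_div, mul_comm, ← div_div, E_eq]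
    rw [h1]
    have hMb : MbQ Y q b = Y * ((GQ q b).card : ℝ) / W * v ^ K := by rw [hv]; rfl
    have hMb0 : 0 < MbQ Y q b := by rw [hMb]; positivity
    rw [le_div_iff₀ hMb0, mul_comm, ← mul_assoc, mul_sum]
    refine sum_le_sum fun n _ => ?_
    have hprod : 0 ≤ ∏ i, A1 (H i) (vq (q i) n) (b i) := prod_nonneg fun i _ => A1_nonneg _ _ (b i)
    by_cases hn : (n : ZMod W) ∈ GQ q b
    · have hw : w1q q (n : ZMod W) b = ((GQ q b).card : ℝ)⁻¹ := by
        unfold w1q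
        rw [if_pos hn]
      rw [hw, hMb]
      have h3 := prod_lower univ (fun i => A1 (H i) (vq (q i) n) (b i) / v)
        fun i => div_nonneg (A1_nonneg _ _ _) hv0.le
      rw [prod_div_distrib, prod_const, card_univ, Fintype.card_fin] at h3
      have h4 := mul_le_mul_of_nonneg_right h3 (by positivity : 0 ≤ v ^ K)
      rw [div_mul_cancel₀ _ (by positivity)] at h4
      have h5 : Y * ((GQ q b).card : ℝ) / W * v ^ K * (W / Y) *
          (((GQ q b).card : ℝ)⁻¹ * (1 - ∑ i, |A1 (H i) (vq (q i) n) (b i) / v - 1|)) =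
          (1 - ∑ i, |A1 (H i) (vq (q i) n) (b i) / v - 1|) * v ^ K := by
        field_simp
      rw [h5]
      exact h4
    · have hw : w1q q (n : ZMod W) b = 0 := by
        unfold w1q
        rw [if_neg hn]
      rw [hw, zero_mul, mul_zero]
      exact hprod
  have hother : ∀ (n : ZMod W) (b : Fin K → ZMod W), b ∉ AdQ W q → w1q q n b = 0 := by
    intro n b hb
    unfold w1q
    rw [if_neg]
    intro hn
    apply hb
    unfold AdQ
    rw [mem_filter]
    exact ⟨mem_univ _, _, hn⟩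
  have hAd : ∀ (n : ZMod W), ∑ b : Fin K → ZMod W, w1q q n b = ∑ b ∈ AdQ W q, w1q q n b := by
    intro n
    symm
    apply sum_subset (subset_univ _)
    intro b _ hb
    exact hother _ b hb
  have hsum : ∀ n ∈ Ioc Y (2 * Y), (1 - K * (δ * √(CC C W))) * (∑ b ∈ AdQ W q, w1q q (n : ZMod W) b) ≤
      ∑ b ∈ AdQ W q,
        (w1q q (n : ZMod W) b * (1 - ∑ i, |A1 (H i) (vq (q i) n) (b i) / v - 1|)) := by
    intro n hn
    rw [← hAd]
    have e1 : ∑ b ∈ AdQ W q, w1q q (n : ZMod W) b *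
        (1 - ∑ i, |A1 (H i) (vq (q i) n) (b i) / v - 1|) =
        ∑ b : Fin K → ZMod W, w1q q (n : ZMod W) b *
          (1 - ∑ i, |A1 (H i) (vq (q i) n) (b i) / v - 1|) := by
      apply sum_subset (subset_univ _)
      intro b _ hb
      rw [hother _ b hb, zero_mul]
    have e2 : ∑ b : Fin K → ZMod W, w1q q (n : ZMod W) b *
        (1 - ∑ i, |A1 (H i) (vq (q i) n) (b i) / v - 1|) =
        ∑ b : Fin K → ZMod W, w1q q (n : ZMod W) b -
          ∑ i, ∑ b : Fin K → ZMod W, w1q q (n : ZMod W) b *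
            |A1 (H i) (vq (q i) n) (b i) / v - 1| := by
      rw [sum_comm, ← sum_sub_distrib]
      refine sum_congr rfl fun b _ => ?_
      rw [mul_sub, mul_one, mul_sum]
    rw [e1, e2]
    have e3 : ∀ i, ∑ b : Fin K → ZMod W, w1q q (n : ZMod W) b *
        |A1 (H i) (vq (q i) n) (b i) / v - 1| ≤
        δ * √(CC C W) * ∑ b : Fin K → ZMod W, w1q q (n : ZMod W) b := by
      intro i
      exact hLAW W hsq K q hdeg (n : ZMod W) i
        (fun β => |A1 (H i) (vq (q i) n) β / v - 1|) δ hδ (by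
        have h1 := hA i n hn
        have h2 : ∀ β : ZMod W, |A1 (H i) (vq (q i) n) β / v - 1| ^ 2 =
            (A1 (H i) (vq (q i) n) β - v) ^ 2 / v ^ 2 := by
          intro β
          rw [sq_abs]
          field_simp
        simp only [h2]
        rw [← sum_div, div_le_iff₀ (by positivity)]
        refine h1.trans (le_of_eq ?_)
        ring)
    have e4 : ∑ i, ∑ b : Fin K → ZMod W, w1q q (n : ZMod W) b *
        |A1 (H i) (vq (q i) n) (b i) / v - 1| ≤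
        K * (δ * √(CC C W) * ∑ b : Fin K → ZMod W, w1q q (n : ZMod W) b) := by
      refine (sum_le_sum fun i _ => e3 i).trans (le_of_eq ?_)
      rw [sum_const, card_univ, Fintype.card_fin, nsmul_eq_mul]
    have e5 : (1 - K * (δ * √(CC C W))) * (∑ b : Fin K → ZMod W, w1q q (n : ZMod W) b) =
        (∑ b : Fin K → ZMod W, w1q q (n : ZMod W) b) -
          K * (δ * √(CC C W) * ∑ b : Fin K → ZMod W, w1q q (n : ZMod W) b) := by ring
    rw [e5]
    linarith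
  -- the total mass
  obtain ⟨T, hT⟩ : ∃ T : ℝ, T = ∑ n ∈ Ioc Y (2 * Y), ∑ b ∈ AdQ W q, w1q q (n : ZMod W) b := ⟨_, rfl⟩
  have hTb : ∀ b ∈ AdQ W q, (Y : ℝ) / W - 1 ≤ ∑ n ∈ Ioc Y (2 * Y), w1q q (n : ZMod W) b ∧
      ∑ n ∈ Ioc Y (2 * Y), w1q q (n : ZMod W) b ≤ (Y : ℝ) / W + 1 := by
    intro b hb
    unfold AdQ at hb
    rw [mem_filter] at hb
    have hg : (0 : ℝ) < (GQ q b).card := by exact_mod_cast hb.2.card_pos
    have h1 : ∑ n ∈ Ioc Y (2 * Y), w1q q (n : ZMod W) b =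
        (((Ioc Y (2 * Y)).filter fun n : ℕ => (n : ZMod W) ∈ GQ q b).card : ℝ) /
          ((GQ q b).card : ℝ) := by
      unfold w1q
      rw [← sum_filter, sum_const, nsmul_eq_mul, div_eq_mul_inv]
    have h2 := set_count Y (GQ q b)
    rw [h1, le_div_iff₀ hg, div_le_iff₀ hg]
    constructor
    · rw [mul_comm]; exact h2.1
    · rw [mul_comm ((Y : ℝ) / W + 1)]; exact h2.2
  have hT2 : T = ∑ b ∈ AdQ W q, ∑ n ∈ Ioc Y (2 * Y), w1q q (n : ZMod W) b := by
    rw [hT, sum_comm]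
  have hTl : R * ((Y : ℝ) / W - 1) ≤ T := by
    rw [hT2, hR]
    calc ((AdQ W q).card : ℝ) * ((Y : ℝ) / W - 1) = ∑ _b ∈ AdQ W q, ((Y : ℝ) / W - 1) := by
          rw [sum_const, nsmul_eq_mul]
      _ ≤ _ := sum_le_sum fun b hb => (hTb b hb).1
  have hTu : T ≤ R * ((Y : ℝ) / W + 1) := by
    rw [hT2, hR]
    calc _ ≤ ∑ _b ∈ AdQ W q, ((Y : ℝ) / W + 1) := sum_le_sum fun b hb => (hTb b hb).2
      _ = _ := by rw [sum_const, nsmul_eq_mul]
  -- the total
  have htot : (W : ℝ) / Y * ((1 - K * (δ * √(CC C W))) * T) ≤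
      ∑ b ∈ AdQ W q, (∑ s ∈ SbQ H b, wcQ Y q s / MbQ Y q b) / (SbQ H b).card := by
    calc (W : ℝ) / Y * ((1 - K * (δ * √(CC C W))) * T)
        = (W : ℝ) / Y * ∑ n ∈ Ioc Y (2 * Y),
            ((1 - K * (δ * √(CC C W))) * (∑ b ∈ AdQ W q, w1q q (n : ZMod W) b)) := by
          rw [hT, ← mul_sum]
      _ ≤ (W : ℝ) / Y * ∑ n ∈ Ioc Y (2 * Y), ∑ b ∈ AdQ W q,
            (w1q q (n : ZMod W) b * (1 - ∑ i, |A1 (H i) (vq (q i) n) (b i) / v - 1|)) := by
          apply mul_le_mul_of_nonneg_left (sum_le_sum hsum) (by positivity)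
      _ = ∑ b ∈ AdQ W q, (W : ℝ) / Y * ∑ n ∈ Ioc Y (2 * Y),
            (w1q q (n : ZMod W) b * (1 - ∑ i, |A1 (H i) (vq (q i) n) (b i) / v - 1|)) := by
          rw [sum_comm, mul_sum]
      _ ≤ _ := sum_le_sum hone
  refine le_trans ?_ htot
  have h2 : (1 - (W : ℝ) / Y) * R ≤ (W : ℝ) / Y * T := by
    have h := mul_le_mul_of_nonneg_left hTl (by positivity : 0 ≤ (W : ℝ) / Y)
    have e : (W : ℝ) / Y * (R * ((Y : ℝ) / W - 1)) = (1 - (W : ℝ) / Y) * R := by
      field_simp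
    rwa [e] at h
  have h3 : (W : ℝ) / Y * T ≤ (1 + (W : ℝ) / Y) * R := by
    have h := mul_le_mul_of_nonneg_left hTu (by positivity : 0 ≤ (W : ℝ) / Y)
    have e : (W : ℝ) / Y * (R * ((Y : ℝ) / W + 1)) = (1 + (W : ℝ) / Y) * R := by
      field_simp
    rwa [e] at h
  have h4 : 0 ≤ K * (δ * √(CC C W)) := by positivity
  have h5 := mul_le_mul_of_nonneg_right h3 h4
  calc (1 - (W : ℝ) / Y - (1 + (W : ℝ) / Y) * (K * (δ * √(CC C W)))) * R
      = (1 - (W : ℝ) / Y) * R - (1 + (W : ℝ) / Y) * R * (K * (δ * √(CC C W))) := by ring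
    _ ≤ (W : ℝ) / Y * T - (W : ℝ) / Y * T * (K * (δ * √(CC C W))) := by linarith
    _ = _ := by ring

end Pool.Agent.Q223.LQ

/-- the job MOM1Q -/
theorem Pool.Agent.Q145.LQ.t_MOM1Q : Pool.Agent.Q145.LQ.S_MOM1Q := Pool.Agent.Q223.LQ.t_MOM1Q
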