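import Pool.Agent.Q145.LQ.Inp
import Pool.Agent.Q145.LS.All
import Pool.Agent.Q38.LQ.LOCQ
import Pool.Agent.Q124.LQ.Crtq
import Pool.Agent.Q124.LQ.Mom2q
import Pool.Agent.Q124.LQ.Prq
import Pool.Agent.Q177.LQ.LAWQ
import Pool.Agent.Q177.LQ.NOK
import Pool.Agent.Q145.LQ.MOM1Q
import Pool.Agent.Q53.LQ.HSQ
import Pool.Agent.Q53.LQ.H2U
import Pool.Agent.Q68.LQ.TAU
import Pool.Agent.Q68.LQ.WCBQ
import Pool.Agent.Q151.LQ.MBQ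
import Pool.Agent.Q151.LQ.LMQ
import Pool.Agent.Q151.LQ.VARQ
import Pool.Agent.Q151.LQ.TAILQ
import Pool.Agent.Q241.LQ.CONVQ
import Pool.Agent.Q210.LQ.TRANSQ
import Pool.Agent.Q275.LQ.Abs
import Pool.Agent.Q275.LQ.Anq
import Pool.Agent.Q275.LQ.Ccb
import Pool.Agent.Q150.LQ.FARQ

/-!
# Project LQ: assembly of all parts
-/

set_option autoImplicit false

namespace Pool.Agent.Q145.LQ

open Finset Filter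
open Pool.Agent.Q145.SZ
open Pool.Agent.Q145.LS (SUFP SUFc case1 case2 dich)

theorem sq2 : S_SQ2 := by
  obtain ⟨C, hC, h⟩ := Pool.Agent.Q145.LS.t_SQ2
  exact ⟨C, hC, fun z w hz => (h z w hz).1⟩

theorem tailq' : S_TAILQ' := t_TAILQ (t_VARQ t_LMQ sq2)

/-- the variance for every degree -/
theorem vbq (d : ℕ) : ∃ a₀ κ : ℕ, 64 ≤ κ ∧ VBQ d a₀ κ := by
  obtain ⟨C, hC, hl⟩ := Pool.Agent.Q38.LQ.t_LOCQ t_ABS d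
  obtain ⟨l1, l2⟩ := Pool.Agent.Q177.LQ.t_LAWQ d C hC (t_CRTQ d C hC hl)
  exact var_boundQ hC l1 l2 t_MOM1Q t_MOM2Q Pool.Agent.Q177.LQ.t_NOK (Pool.Agent.Q53.LQ.HSQ.main (Pool.Agent.Q53.LQ.JPOLY.main sq2)) t_ESQ t_SIEVE t_CCB
    Pool.Agent.Q111.SZ.t_PWB t_US

theorem sufq2 (cht : S_CHT) : SUFP PQC := by
  obtain ⟨a₀, κ, hκ, hv⟩ := vbq 2
  exact sufQ2 t_ANQ Pool.Agent.Q53.LQ.H2U.main t_PRQ t_TAU tailq' (Pool.Agent.Q150.LQ.t_FARQ cht) t_MBQ Pool.Agent.Q210.LQ.t_TRANSQ t_WCBQ hκ hv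

theorem mainA1 (cht : S_CHT) (A ε : ℝ) (hε : 0 < ε) : ∀ᶠ Y : ℕ in atTop, ∀ Q : ℕ, (Q : ℝ) ≤ A * Real.log (Real.log Y) → PQC Y Q ε :=
  case1 zr' Pool.Agent.Q111.SZ.t_PWB Pool.Agent.Q177.SZ.t_SIEG (sufq2 cht) A ε hε

theorem mainA2 (cht : S_CHT) : ∃ c : ℝ, 0 < c ∧ ∀ ε : ℝ, 0 < ε → ∃ᶠ Y : ℕ in atTop, ∀ Q : ℕ, (Q : ℝ) ≤ c * (Real.log Y / Real.log (Real.log Y)) → PQC Y Q ε :=
  case2 Pool.Agent.Q111.SZ.t_PWB (sufq2 cht) good'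

theorem mainA3 (cht : S_CHT) : ∃ c C : ℝ, 0 < c ∧ 0 < C ∧ ∀ ε : ℝ, 0 < ε → ∀ᶠ Y : ℕ in atTop,
      (∀ (r : ℕ) [NeZero r], 1 < r → (r : ℝ) ≤ Real.exp (Real.log Y / Real.log (Real.log Y)) → ∀ χ : DirichletCharacter ℂ r, χ.IsPrimitive → χ ^ 2 = 1 →
        ∀ β : ℝ, χ.LFunction β = 0 → β ≤ 1 - C * (Real.log (Real.log Y) / Real.log Y)) →
      ∀ Q : ℕ, (Q : ℝ) ≤ c * (Real.log Y / Real.log (Real.log Y)) → PQC Y Q ε :=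
  dich zr' Pool.Agent.Q111.SZ.t_PWB (sufq2 cht)

end Pool.Agent.Q145.LQ
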