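import Pool.Agent.Q145.LQ.Near

/-!
# Project LQ: exceptional pairs of quadratic systems
-/

set_option autoImplicit false

namespace Pool.Agent.Q145.LQ

open Finset Filter
open Pool.Agent.Q145.SZ

lemma exq_le {K : ℕ} (Y : ℕ) (q : Fin K → Polynomial ℤ) (D : Fin K → Finset ℕ) :
    ((exq Y q D).card : ℝ) ≤ ∑ i, (((((Ioc Y (2 * Y)) ×ˢ (Ioc Y (2 * Y))).filter fun x : ℕ × ℕ => dst (vq (q i) x.1) (vq (q i) x.2) ∈ D i).card : ℕ) : ℝ) := by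
  have h : exq Y q D ⊆ univ.biUnion fun i => ((Ioc Y (2 * Y)) ×ˢ (Ioc Y (2 * Y))).filter fun x : ℕ × ℕ => dst (vq (q i) x.1) (vq (q i) x.2) ∈ D i := by
    intro x hx
    unfold exq at hx
    rw [mem_filter] at hx
    obtain ⟨h1, i, hi⟩ := hx
    rw [mem_biUnion]
    exact ⟨i, mem_univ i, mem_filter.2 ⟨h1, hi⟩⟩
  have h2 := (card_le_card h).trans card_biUnion_le
  exact_mod_cast h2

/-- `∑_{h ∈ D} τ(h)` for a small set `D` -/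
lemma tau_small {Ct L W : ℝ} {Z e : ℕ} {D : Finset ℕ} (hCt : 0 < Ct) (hW : 1 ≤ W) (hZ : 3 ≤ Z)
    (tau : ∀ (Z : ℕ) (D : Finset ℕ), 3 ≤ Z → D ⊆ Icc 1 Z → ∑ h ∈ D, (h.divisors.card : ℝ) ≤ Ct * √((D.card : ℝ) * Z) * Real.log Z ^ 2)
    (hD : D ⊆ Icc 1 Z) (hDc : (D.card : ℝ) ≤ Z / W ^ (2 * e)) (hL : Real.log Z ≤ 2 * L) :
    ∑ h ∈ D, (h.divisors.card : ℝ) ≤ 4 * Ct * L ^ 2 * Z / W ^ e := by
  have h1 := tau Z D hZ hD
  have hZ0 : (0 : ℝ) ≤ Z := by positivity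
  have hlog : 0 ≤ Real.log Z := Real.log_natCast_nonneg Z
  have hWp : 0 < W ^ e := by positivity
  have h2 : √((D.card : ℝ) * Z) ≤ Z / W ^ e := by
    apply Real.sqrt_le_iff.2
    refine ⟨by positivity, ?_⟩
    calc (D.card : ℝ) * Z ≤ Z / W ^ (2 * e) * Z := by gcongr
      _ = (Z / W ^ e) ^ 2 := by rw [mul_comm 2 e, pow_mul]; ring
  calc ∑ h ∈ D, (h.divisors.card : ℝ) ≤ Ct * √((D.card : ℝ) * Z) * Real.log Z ^ 2 := h1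
    _ ≤ Ct * (Z / W ^ e) * (2 * L) ^ 2 := by gcongr
    _ = 4 * Ct * L ^ 2 * Z / W ^ e := by ring

theorem exq_quad (prq : S_PRQ) (tau : S_TAU) (a₀ : ℕ) : ∃ M : ℝ, 64 ≤ M ∧ ∀ (z Y K : ℕ) (H : Fin K → ℕ) (q : Fin K → Polynomial ℤ) (D : Fin K → Finset ℕ),
    M ≤ Real.log (Real.log ((Y ^ 2 : ℕ) : ℝ)) → 64 * Real.log (Real.log ((Y ^ 2 : ℕ) : ℝ)) ≤ z → 64 * z * Real.log (Real.log ((Y ^ 2 : ℕ) : ℝ)) ≤ Real.log Y → K ≤ z →
    Sys 2 z Y (Y ^ 2) H q → (∀ i, (q i).natDegree = 2) → (∀ i, D i ⊆ Icc 1 (H i) ∧ ((D i).card : ℝ) ≤ (H i : ℝ) / (PW z : ℝ) ^ (4 * a₀ + 40)) →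
    ((exq Y q D).card : ℝ) ≤ (Y : ℝ) ^ 2 / (PW z : ℝ) ^ (2 * (a₀ + 8)) := by
  obtain ⟨Ct, hCt, ht⟩ := tau
  obtain ⟨z₁, hz₁⟩ := Pool.Agent.Q111.SZ.t_PWB.2
  set M : ℝ := 64 + 16 * Ct + z₁ with hM
  have p2 : (0 : ℝ) ≤ z₁ := by positivity
  have hM64 : 64 ≤ M := by linarith
  refine ⟨M, hM64, ?_⟩
  intro z Y K H q D hX hz hzY hK hS hdeg hD
  have hY1 : 1 ≤ Y := by
    rcases Nat.eq_zero_or_pos Y with h | h
    · rw [h] at hX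
      simp at hX
      linarith
    · exact h
  have hYX : Y ≤ Y ^ 2 := by nlinarith
  obtain ⟨hL0, hLM, hzM, hzL, hzl, hXe, hYe, hLe, hl64, hlL, hYXl⟩ := elemQ hM64 hX hYX hz hzY
  have hscale := fun (Z : ℕ) (h1 : Y ^ 2 ≤ Z) (h2 : Z ≤ z * Y ^ 2) => scaleQ hl64 hz (by linarith) h1 h2
  set L := Real.log ((Y ^ 2 : ℕ) : ℝ) with hL
  set l := Real.log L with hl
  have hz0 : (0 : ℝ) < z := by linarith
  have hY0 : (0 : ℝ) < Y := by exact_mod_cast hY1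
  have hz1 : z₁ ≤ z := by
    have : (z₁ : ℝ) ≤ z := by linarith
    exact_mod_cast this
  have hW := hz₁ z hz1
  have hW1 := one_le_PW z
  set W : ℝ := (PW z : ℝ) with hWd
  have hW0 : 0 < W := by linarith
  have hL1 : 1 ≤ L := by linarith
  -- L^32 ≤ W
  have hLW : L ^ 32 ≤ W := by
    calc L ^ 32 = Real.exp (32 * l) := by
          rw [hLe, show (32 : ℝ) = ((32 : ℕ) : ℝ) by norm_num, Real.exp_nat_mul]
      _ ≤ Real.exp ((z : ℝ) / 2) := Real.exp_le_exp.2 (by linarith)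
      _ ≤ W := hW
  have hHs : ∀ i, Y ^ 2 ≤ H i := fun i => (hS.scale i).1
  have hXL : L ≤ ((Y ^ 2 : ℕ) : ℝ) := by
    have := Real.add_one_le_exp L
    rw [← hXe] at this; linarith
  have hY3 : 3 ≤ Y ^ 2 := by
    have : (3 : ℝ) ≤ ((Y ^ 2 : ℕ) : ℝ) := by linarith
    exact_mod_cast this
  have key : ∀ i, (((((Ioc Y (2 * Y)) ×ˢ (Ioc Y (2 * Y))).filter fun x : ℕ × ℕ => dst (vq (q i) x.1) (vq (q i) x.2) ∈ D i).card : ℕ) : ℝ) ≤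
      16 * Ct * L ^ 2 * (z * (Y : ℝ) ^ 2) / W ^ (2 * a₀ + 20) := by
    intro i
    obtain ⟨s1, s2, s3, s4⟩ := hscale _ (hHs i) (hS.scale i).2
    have h0 : 0 ∉ D i := fun h => by
      have := (hD i).1 h
      rw [mem_Icc] at this
      omega
    have h1 := prq Y (q i) (D i) (hdeg i) (fun n hn => hS.nonneg i hn) h0
    have hDc := (hD i).2
    rw [show 4 * a₀ + 40 = 2 * (2 * a₀ + 20) by ring] at hDc
    have h2 := tau_small (L := L) hCt hW1 (hY3.trans (hHs i)) ht (hD i).1 hDc s2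
    have hHle : (H i : ℝ) ≤ z * (Y : ℝ) ^ 2 := by
      have := (hS.scale i).2
      have h3 : ((H i : ℕ) : ℝ) ≤ ((z * Y ^ 2 : ℕ) : ℝ) := by exact_mod_cast this
      push_cast at h3
      exact h3
    calc _ ≤ 4 * ∑ h ∈ D i, (h.divisors.card : ℝ) := h1
      _ ≤ 4 * (4 * Ct * L ^ 2 * H i / W ^ (2 * a₀ + 20)) := by gcongr
      _ ≤ 4 * (4 * Ct * L ^ 2 * (z * (Y : ℝ) ^ 2) / W ^ (2 * a₀ + 20)) := by gcongr
      _ = _ := by ring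
  have hKz : (K : ℝ) ≤ z := by exact_mod_cast hK
  have hzLr : (z : ℝ) ≤ L := by linarith
  have hCtL : 16 * Ct ≤ L := by linarith
  calc ((exq Y q D).card : ℝ) ≤ ∑ i : Fin K, (16 * Ct * L ^ 2 * (z * (Y : ℝ) ^ 2) / W ^ (2 * a₀ + 20)) := (exq_le Y q D).trans (sum_le_sum fun i _ => key i)
    _ = K * (16 * Ct * L ^ 2 * (z * (Y : ℝ) ^ 2) / W ^ (2 * a₀ + 20)) := by rw [sum_const, card_univ, Fintype.card_fin, nsmul_eq_mul]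
    _ ≤ L * (L * L ^ 2 * (L * (Y : ℝ) ^ 2) / W ^ (2 * a₀ + 20)) := by gcongr; linarith
    _ = L ^ 5 * ((Y : ℝ) ^ 2 / W ^ (2 * a₀ + 20)) := by ring
    _ ≤ W ^ 4 * ((Y : ℝ) ^ 2 / W ^ (2 * a₀ + 20)) := by
      gcongr
      calc L ^ 5 ≤ L ^ 32 := pow_le_pow_right₀ hL1 (by norm_num)
        _ ≤ W := hLW
        _ = W ^ 1 := (pow_one W).symm
        _ ≤ W ^ 4 := pow_le_pow_right₀ hW1 (by norm_num)
    _ = (Y : ℝ) ^ 2 / W ^ (2 * (a₀ + 8)) := by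
      rw [show 2 * a₀ + 20 = 2 * (a₀ + 8) + 4 by ring, pow_add]
      field_simp

end Pool.Agent.Q145.LQ
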