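import Pool.Agent.Q145.LQ.Exq
import Pool.Agent.Q145.LS.Gen

/-!
# Project LQ: the analytic input for all scales, the sufficiency statement for quadratic systems
-/

set_option autoImplicit false

namespace Pool.Agent.Q145.LQ

open Finset Filter
open Pool.Agent.Q145.SZ
open Pool.Agent.Q145.LS (SUFP SUFc)

/-- inputs at one scale -/
def INQ (A A₁ z Z : ℕ) : Prop := H1Q A z Z ∧ ∃ D : Finset ℕ, D ⊆ Icc 1 Z ∧ (D.card : ℝ) ≤ (Z : ℝ) / (PW z : ℝ) ^ A₁ ∧ H2D A z Z D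

lemma H1Q_mono {A A' z Z : ℕ} (hA : A ≤ A') (hZ : 1 ≤ Real.log Z) (h : H1Q A' z Z) : H1Q A z Z := by
  intro N hN
  refine (h N hN).trans ?_
  have h1 : 1 / Real.log Z ^ A' ≤ 1 / Real.log Z ^ A := one_div_le_one_div_of_le (pow_pos (by linarith) _) (pow_le_pow_right₀ hZ hA)
  have h2 : 0 ≤ vv (PW z) ^ 2 := sq_nonneg _
  gcongr

theorem inputs (anq : S_ANQ) (h2u : S_H2U) (A A₁ : ℕ) (hA : A ≤ A₁) : ∃ (B : ℕ) (C₀ : ℝ), 1 ≤ B ∧ 64 ≤ C₀ ∧
    ∀ (z X : ℕ) (ω T : ℝ), C₀ ≤ Real.log (Real.log X) → C₀ * Real.log (Real.log X) ≤ z → C₀ * z * Real.log (Real.log X) ≤ Real.log X →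
      0 < ω → ω ≤ 1 / 4 → C₀ * Real.log (Real.log X) ≤ ω * Real.log X → 0 < T → 120 * B * z ≤ Real.log T → 7 * √(Real.log X) ≤ Real.log T →
      ZF (PW z ^ B) ω T → ∀ Z : ℕ, X ≤ Z → Z ≤ z * X → INQ A A₁ z Z := by
  obtain ⟨A', X₀, hA', hu⟩ := h2u A₁
  obtain ⟨B, C₀, hB, hC₀, han⟩ := anq A'
  refine ⟨B, 2 * C₀ + X₀, hB, ?_, ?_⟩
  · have : (0 : ℝ) ≤ X₀ := by positivity
    linarith
  intro z X ω T hl hz hzL hω hω4 hωL hT hTz hTL hZF Z hXZ hZz
  have p1 : (0 : ℝ) ≤ X₀ := by positivity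
  have hl0 : 0 < Real.log (Real.log X) := by linarith
  have hl64 : 64 ≤ Real.log (Real.log X) := by linarith
  have hz0 : (0 : ℝ) ≤ z := by positivity
  have hzl0 : 0 ≤ (z : ℝ) * Real.log (Real.log X) := by positivity
  have hX₀l : 0 ≤ (X₀ : ℝ) * Real.log (Real.log X) := by positivity
  have hX₀zl : 0 ≤ (X₀ : ℝ) * (z * Real.log (Real.log X)) := by positivity
  have hz' : C₀ * Real.log (Real.log X) ≤ z := by nlinarith
  have hzL' : C₀ * z * Real.log (Real.log X) ≤ Real.log X := by nlinarith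
  have h64z : 128 * Real.log (Real.log X) ≤ z := by nlinarith
  have h64L : 128 * z * Real.log (Real.log X) ≤ Real.log X := by nlinarith
  obtain ⟨r1, r2⟩ := han z X ω T (by linarith) hz' hzL' hω hω4 (by nlinarith) hT hTz hTL hZF Z hXZ hZz
  obtain ⟨s1, s2, s3, s4⟩ := scaleQ hl64 (by linarith) (by nlinarith) hXZ hZz
  have hlog1 : 1 ≤ Real.log Z := by
    have := elem (z := z) (X := X) (C := 64) (M := 64) le_rfl (by norm_num) hl64 (by linarith) (by nlinarith)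
    linarith [this.2.1]
  have hX₀Z : X₀ ≤ Z := by
    have h1 : Real.log (Real.log X) ≤ Real.log X := by
      have hL := (elem (z := z) (X := X) (C := 64) (M := 64) le_rfl (by norm_num) hl64 (by linarith) (by nlinarith)).1
      have := Real.log_le_sub_one_of_pos hL
      linarith
    have h2 : Real.log X ≤ X := by
      rcases Nat.eq_zero_or_pos X with h | h
      · rw [h]; simp
      · have := Real.log_le_sub_one_of_pos (by exact_mod_cast h : (0 : ℝ) < X)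
        linarith
    have h3 : (X : ℝ) ≤ Z := by exact_mod_cast hXZ
    have h4 : (X₀ : ℝ) ≤ Z := by linarith
    exact_mod_cast h4
  obtain ⟨D, hD, hDc, hD2⟩ := hu z Z hX₀Z (by linarith) (by nlinarith) r2
  refine ⟨H1Q_mono (hA.trans hA') hlog1 r1, D, hD, hDc, ?_⟩
  intro n hn m hm h1 h2 h3 h4
  refine (hD2 n hn m hm h1 h2 h3 h4).trans ?_
  have h5 : 1 / Real.log Z ^ A₁ ≤ 1 / Real.log Z ^ A := one_div_le_one_div_of_le (pow_pos (by linarith) _) (pow_le_pow_right₀ hlog1 hA)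
  have h6 : 0 < Real.log Z := by linarith
  have h7 : 0 ≤ 1 / Real.log Z ^ A₁ := by positivity
  have h8 : 0 ≤ 1 / Real.log Z ^ A := by positivity
  have h9 : (1 / Real.log Z ^ A₁ * vv (PW z) ^ 2 * SP z Z (dst n m)) ^ 2 ≤ (1 / Real.log Z ^ A * vv (PW z) ^ 2 * SP z Z (dst n m)) ^ 2 := by
    have e : ∀ x : ℝ, (x * vv (PW z) ^ 2 * SP z Z (dst n m)) ^ 2 = x ^ 2 * (vv (PW z) ^ 2 * SP z Z (dst n m)) ^ 2 := by intro x; ring
    rw [e, e]
    apply mul_le_mul_of_nonneg_right (pow_le_pow_left₀ h7 h5 2) (sq_nonneg _)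
  exact mul_le_mul_of_nonneg_right h9 (Nat.cast_nonneg _)

/-- the result for systems of quadratic polynomials with scale `Y²` -/
def PQ2 (Y Q : ℕ) (ε : ℝ) : Prop := ∀ (K : ℕ) (H : Fin K → ℕ) (q : Fin K → Polynomial ℤ), 6 * (K + 1) ≤ Q → Sys 2 Q Y (Y ^ 2) H q → (∀ i, (q i).natDegree = 2) →
  HLQ Y H q (singQ q) ε

lemma Sys.mono {d z z' Y X K : ℕ} {H : Fin K → ℕ} {q : Fin K → Polynomial ℤ} (h : Sys d z Y X H q) (hz : z ≤ z') : Sys d z' Y X H q where
  deg := h.deg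
  lead := fun i => (h.lead i).trans hz
  scale := fun i => ⟨(h.scale i).1, (h.scale i).2.trans (Nat.mul_le_mul_right _ hz)⟩
  val := h.val

lemma loglog_sq {Y : ℕ} (h : 1 ≤ Real.log (Real.log Y)) : Real.log ((Y ^ 2 : ℕ) : ℝ) = 2 * Real.log Y ∧
    Real.log (Real.log Y) ≤ Real.log (Real.log ((Y ^ 2 : ℕ) : ℝ)) ∧ Real.log (Real.log ((Y ^ 2 : ℕ) : ℝ)) ≤ 2 * Real.log (Real.log Y) := by
  have e : Real.log ((Y ^ 2 : ℕ) : ℝ) = 2 * Real.log Y := by
    push_cast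
    rw [Real.log_pow]
    norm_num
  have hL : 0 < Real.log Y := by
    by_contra hcon
    push Not at hcon
    have h0 : Real.log Y = 0 := le_antisymm hcon (Real.log_natCast_nonneg Y)
    rw [h0] at h
    simp at h
    linarith
  have e2 : Real.log (2 * Real.log Y) = Real.log 2 + Real.log (Real.log Y) := Real.log_mul (by norm_num) hL.ne'
  have h2 : Real.log 2 ≤ 1 := by
    have := Real.log_le_sub_one_of_pos (by norm_num : (0 : ℝ) < 2)
    linarith
  have h3 : 0 ≤ Real.log 2 := Real.log_nonneg (by norm_num)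
  refine ⟨e, ?_, ?_⟩
  · rw [e, e2]; linarith
  · rw [e, e2]; linarith

open Classical in
/-- the series of most admissible constants converges to a positive number -/
theorem conv_quad (far : S_FARQ') (mbs : S_MBQ) (tr : S_TRANSQ) : ∀ ε : ℝ, 0 < ε → ∃ M : ℝ, 64 ≤ M ∧ ∀ (z Y K : ℕ) (H : Fin K → ℕ) (q : Fin K → Polynomial ℤ), M ≤ Real.log (Real.log ((Y ^ 2 : ℕ) : ℝ)) →
    64 * Real.log (Real.log ((Y ^ 2 : ℕ) : ℝ)) ≤ z → 64 * z * Real.log (Real.log ((Y ^ 2 : ℕ) : ℝ)) ≤ Real.log Y → 16 * (K + 1) ≤ z → Sys 2 z Y (Y ^ 2) H q →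
    (∀ i, (q i).natDegree = 2) →
    (((ATQ H q).filter fun s => ¬ (0 < singQ q s ∧ Tendsto (singPQ q s) atTop (nhds (singQ q s)))).card : ℝ) ≤ ε * (ATQ H q).card := by
  intro ε hε
  obtain ⟨Y₀, hf⟩ := far (ε / 2) (by positivity)
  refine ⟨64 + Y₀, by have : (0 : ℝ) ≤ Y₀ := by positivity
                      linarith, ?_⟩
  have p2 : (0 : ℝ) ≤ Y₀ := by positivity
  intro z Y K H q hX hz hzY hK hS hdeg
  have hM64 : 64 ≤ 64 + (Y₀ : ℝ) := by linarith
  have hY1 : 1 ≤ Y := by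
    rcases Nat.eq_zero_or_pos Y with h | h
    · rw [h] at hX
      simp at hX
      linarith
    · exact h
  have hYX : Y ≤ Y ^ 2 := by nlinarith
  obtain ⟨hL0, hLM, hzM, hzL, hzl, hXe, hYe, hLe, hl64, hlL, hYXl⟩ := elemQ hM64 hX hYX hz hzY
  have hz0 : (0 : ℝ) < z := by linarith
  have hzl' : 64 * (z : ℝ) ≤ z * Real.log (Real.log ((Y ^ 2 : ℕ) : ℝ)) := by nlinarith
  have hzLY : 4096 * (z : ℝ) ≤ Real.log Y := by linarith
  have hY0 : (0 : ℝ) < Y := by exact_mod_cast hY1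
  have hLYY : Real.log Y ≤ Y := by
    have := Real.add_one_le_exp (Real.log Y)
    rw [← hYe] at this; linarith
  have hY₀ : Y₀ ≤ Y := by
    have : (Y₀ : ℝ) ≤ Y := by linarith
    exact_mod_cast this
  have hW40 : (PW z : ℝ) ^ 40 ≤ (Y : ℝ) ^ 2 := by
    calc (PW z : ℝ) ^ 40 ≤ (Real.exp (2 * z)) ^ 40 := by gcongr; exact PW_le Pool.Agent.Q111.SZ.t_PWB z
      _ = Real.exp (80 * z) := by rw [← Real.exp_nat_mul]; ring_nf
      _ ≤ Real.exp (2 * Real.log Y) := Real.exp_le_exp.2 (by linarith)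
      _ = (Y : ℝ) ^ 2 := by rw [show (2 : ℝ) = ((2 : ℕ) : ℝ) by norm_num, Real.exp_nat_mul, ← hYe]
  have h8 : 8 * (K + 1) * PW z ≤ Y ^ 2 := by
    have h1 : ((8 * (K + 1) * PW z : ℕ) : ℝ) ≤ ((Y ^ 2 : ℕ) : ℝ) := by
      have hKz : ((16 * (K + 1) : ℕ) : ℝ) ≤ z := by exact_mod_cast hK
      rw [Nat.cast_mul, Nat.cast_mul]
      push_cast at hKz ⊢
      calc (8 * ((K : ℝ) + 1)) * PW z ≤ Real.exp z * Real.exp (2 * z) := by
            gcongr
            · linarith [Real.add_one_le_exp (z : ℝ)]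
            · exact PW_le Pool.Agent.Q111.SZ.t_PWB z
        _ = Real.exp (3 * z) := by rw [← Real.exp_add]; ring_nf
        _ ≤ Real.exp (2 * Real.log Y) := Real.exp_le_exp.2 (by linarith)
        _ = (Y : ℝ) ^ 2 := by rw [show (2 : ℝ) = ((2 : ℕ) : ℝ) by norm_num, Real.exp_nat_mul, ← hYe]
    exact_mod_cast h1
  have hfb := hf z Y K H q hY₀ hK hS hdeg (by linarith) hW40
  obtain ⟨E, hE⟩ : ∃ E : (Fin K → ℕ) → Prop, ∀ s, E s ↔ ¬ (AdmQ q s → 0 < singQ q s ∧ Tendsto (singPQ q s) atTop (nhds (singQ q s))) :=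
    ⟨_, fun _ => Iff.rfl⟩
  have ht := tr mbs 2 z Y (Y ^ 2) K H q E (ε / 2) (by omega) hS h8 (by
    calc _ ≤ ∑ _b ∈ AdQ (PW z) q, ε / 2 := by
          apply sum_le_sum
          intro b _
          apply div_le_of_le_mul₀ (Nat.cast_nonneg _) (by positivity)
          refine le_trans ?_ (hfb b)
          have : ((SbQ H b).filter fun s => E s) ⊆
              ((SbQ H b).filter fun s => ¬ (AdmQ q s → 0 < singQ q s ∧ Tendsto (singPQ q s) atTop (nhds (singQ q s)) ∧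
                |singQ q s - singPQ q s (w0 (Y ^ 2))| ≤ ε / 2 * singPQ q s (w0 (Y ^ 2)))) := by
            intro s hs
            rw [mem_filter] at hs ⊢
            rw [hE] at hs
            exact ⟨hs.1, fun h => hs.2 fun had => ⟨(h had).1, (h had).2.1⟩⟩
          exact_mod_cast card_le_card this
      _ = ε / 2 * (AdQ (PW z) q).card := by rw [sum_const, nsmul_eq_mul]; ring)
  have e : (ATQ H q).filter (fun s => ¬ (0 < singQ q s ∧ Tendsto (singPQ q s) atTop (nhds (singQ q s)))) =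
      (ATQ H q).filter (fun s => E s) := by
    apply filter_congr
    intro s hs
    unfold ATQ at hs
    rw [mem_filter] at hs
    have had := hs.2
    rw [hE]
    constructor
    · intro h h2
      exact h (h2 had)
    · intro h h2
      exact h fun _ => h2
  rw [e]
  refine ht.trans (le_of_eq ?_)
  ring

open Classical in
/-- the formula with convergence of the series, for quadratic systems -/
def HLC {K : ℕ} (Y : ℕ) (H : Fin K → ℕ) (q : Fin K → Polynomial ℤ) (ε : ℝ) : Prop :=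
  (((ATQ H q).filter fun s => ¬ (0 < singQ q s ∧ Tendsto (singPQ q s) atTop (nhds (singQ q s)) ∧
    |cntQ Y q s * ∏ i, Real.log (H i) - singQ q s * Y| ≤ ε * (singQ q s * Y))).card : ℝ) ≤ ε * (ATQ H q).card

/-- the result for systems of quadratic polynomials with scale `Y²`, with convergence -/
def PQC (Y Q : ℕ) (ε : ℝ) : Prop := ∀ (K : ℕ) (H : Fin K → ℕ) (q : Fin K → Polynomial ℤ), 6 * (K + 1) ≤ Q → Sys 2 Q Y (Y ^ 2) H q → (∀ i, (q i).natDegree = 2) →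
  HLC Y H q ε

lemma hlc_of {K : ℕ} {Y : ℕ} {H : Fin K → ℕ} {q : Fin K → Polynomial ℤ} {ε : ℝ} (hε : 0 < ε) (h1 : HLQ Y H q (singQ q) (ε / 2)) (h2 : by
    classical exact (((ATQ H q).filter fun s => ¬ (0 < singQ q s ∧ Tendsto (singPQ q s) atTop (nhds (singQ q s)))).card : ℝ) ≤ ε / 2 * (ATQ H q).card) :
    HLC Y H q ε := by
  classical
  unfold HLQ at h1
  unfold HLC
  have hsub : ((ATQ H q).filter fun s => ¬ (0 < singQ q s ∧ Tendsto (singPQ q s) atTop (nhds (singQ q s)) ∧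
    |cntQ Y q s * ∏ i, Real.log (H i) - singQ q s * Y| ≤ ε * (singQ q s * Y))) ⊆
      ((ATQ H q).filter fun s => ¬ (|cntQ Y q s * ∏ i, Real.log (H i) - singQ q s * Y| ≤ ε / 2 * (singQ q s * Y))) ∪
      ((ATQ H q).filter fun s => ¬ (0 < singQ q s ∧ Tendsto (singPQ q s) atTop (nhds (singQ q s)))) := by
    intro s hs
    rw [mem_filter] at hs
    rw [mem_union, mem_filter, mem_filter]
    by_contra hcon
    rw [not_or] at hcon
    obtain ⟨c1, c2⟩ := hcon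
    have c1 : |cntQ Y q s * ∏ i, Real.log (H i) - singQ q s * Y| ≤ ε / 2 * (singQ q s * Y) := by
      by_contra h
      exact c1 ⟨hs.1, h⟩
    have c2 : 0 < singQ q s ∧ Tendsto (singPQ q s) atTop (nhds (singQ q s)) := by
      by_contra h
      exact c2 ⟨hs.1, h⟩
    apply hs.2
    refine ⟨c2.1, c2.2, c1.trans ?_⟩
    have : 0 ≤ singQ q s * Y := mul_nonneg c2.1.le (Nat.cast_nonneg _)
    nlinarith
  have h3 := (card_le_card hsub).trans (card_union_le _ _)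
  have h4 : ((((ATQ H q).filter fun s => ¬ (0 < singQ q s ∧ Tendsto (singPQ q s) atTop (nhds (singQ q s)) ∧
    |cntQ Y q s * ∏ i, Real.log (H i) - singQ q s * Y| ≤ ε * (singQ q s * Y)))).card : ℝ) ≤
      ((((ATQ H q).filter fun s => ¬ (|cntQ Y q s * ∏ i, Real.log (H i) - singQ q s * Y| ≤ ε / 2 * (singQ q s * Y)))).card : ℝ) +
      ((((ATQ H q).filter fun s => ¬ (0 < singQ q s ∧ Tendsto (singPQ q s) atTop (nhds (singQ q s))))).card : ℝ) := by exact_mod_cast h3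
  have h5 : ε / 2 * ((ATQ H q).card : ℝ) + ε / 2 * ((ATQ H q).card : ℝ) = ε * ((ATQ H q).card : ℝ) := by ring
  linarith

theorem sufQ2 (anq : S_ANQ) (h2u : S_H2U) (prq : S_PRQ) (tau : S_TAU) (tail : S_TAILQ') (far : S_FARQ') (mbs : S_MBQ) (tr : S_TRANSQ) (wcb : S_WCBQ)
    {a₀ κ : ℕ} (hκ : 64 ≤ κ) (vb : VBQ 2 a₀ κ) : SUFP PQC := by
  obtain ⟨B, C₀, hB, hC₀, hin⟩ := inputs anq h2u (2 * (a₀ + 11)) (4 * a₀ + 40) (by omega)
  have hκr : (64 : ℝ) ≤ κ := by exact_mod_cast hκ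
  refine ⟨B, 2 * C₀ + 2 * κ, hB, by linarith, fun ε hε => ?_⟩
  obtain ⟨M₁, hM₁, hexq⟩ := exq_quad prq tau a₀
  obtain ⟨M₂, hM₂, hnear⟩ := near_quad tail far (min (ε / 2) 1 / 16) (ε / 2 / 8) (by positivity) (by positivity)
  obtain ⟨M₃, hM₃, hh⟩ := hls_boundQ hκ vb mbs tr wcb Pool.Agent.Q111.SZ.t_PWB (ε / 2) (by positivity)
  obtain ⟨M₄, hM₄, hcv⟩ := conv_quad far mbs tr (ε / 2) (by positivity)
  refine ⟨M₁ + M₂ + M₃ + M₄ + 2 * C₀ + 2 * κ, by linarith, ?_⟩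
  intro z Y ω T hl hz hzL hω hω4 hωL hT hTz hTL hZF Q hQ K H q hKQ hSys hdeg
  have hlY0 : 0 < Real.log (Real.log Y) := by linarith
  obtain ⟨e1, e2, e3⟩ := loglog_sq (Y := Y) (by linarith)
  set l := Real.log (Real.log Y) with hldef
  set lX := Real.log (Real.log ((Y ^ 2 : ℕ) : ℝ)) with hlX
  have hz0 : (0 : ℝ) ≤ z := by positivity
  have hzl0 : 0 ≤ (z : ℝ) * l := by positivity
  have hlog0 : 0 ≤ Real.log Y := Real.log_natCast_nonneg Y
  have hC₀l : 0 ≤ C₀ * l := by positivity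
  have hκl : 0 ≤ (κ : ℝ) * l := by positivity
  have hS : Sys 2 z Y (Y ^ 2) H q := hSys.mono (by omega)
  have hY1 : 1 ≤ Y := by
    rcases Nat.eq_zero_or_pos Y with h | h
    · rw [hldef, h] at hlY0
      simp at hlY0
    · exact h
  have hYX : Y ≤ Y ^ 2 := by nlinarith
  have hC₀zl : 0 ≤ C₀ * (z * l) := by positivity
  have hκzl : 0 ≤ (κ : ℝ) * (z * l) := by positivity
  have c1 : C₀ * lX ≤ z := by
    have : C₀ * lX ≤ C₀ * (2 * l) := by gcongr
    nlinarith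
  have c2 : C₀ * z * lX ≤ Real.log ((Y ^ 2 : ℕ) : ℝ) := by
    have : C₀ * z * lX ≤ C₀ * z * (2 * l) := by gcongr
    rw [e1]
    nlinarith
  have c3 : C₀ * lX ≤ ω * Real.log ((Y ^ 2 : ℕ) : ℝ) := by
    have : C₀ * lX ≤ C₀ * (2 * l) := by gcongr
    have h2 : 0 ≤ ω * Real.log Y := by positivity
    rw [e1]
    nlinarith
  have c4 : 7 * √(Real.log ((Y ^ 2 : ℕ) : ℝ)) ≤ Real.log T := by
    refine le_trans ?_ hTL
    rw [e1]
    have h1 : √(2 * Real.log Y) ≤ 10 / 7 * √(Real.log Y) := by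
      apply Real.sqrt_le_iff.2
      refine ⟨by positivity, ?_⟩
      rw [mul_pow, Real.sq_sqrt hlog0]
      nlinarith
    linarith
  have c5 : 64 * lX ≤ z := by
    have : (64 : ℝ) * lX ≤ C₀ * lX := by gcongr; linarith
    linarith
  have c6 : (κ : ℝ) * z * lX ≤ Real.log Y := by
    have : (κ : ℝ) * z * lX ≤ κ * z * (2 * l) := by gcongr
    nlinarith
  have c7 : 64 * z * lX ≤ Real.log Y := by
    have h1 : (64 : ℝ) * z * lX ≤ κ * z * lX := by gcongr; linarith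
    linarith
  have hIN : ∀ i, INQ (2 * (a₀ + 11)) (4 * a₀ + 40) z (H i) := fun i =>
    hin z (Y ^ 2) ω T (by linarith) c1 c2 hω hω4 c3 hT hTz c4 hZF (H i) (hS.scale i).1 (hS.scale i).2
  choose h1 D hD hDc h2 using hIN
  have hKz : K ≤ z := by omega
  have hex := hexq z Y K H q D (by linarith) c5 c7 hKz hS hdeg (fun i => ⟨hD i, hDc i⟩)
  have hn := hnear z Y K H q (by linarith) c5 c7 (by omega) hS hdeg
  exact hlc_of hε (hh z Y (Y ^ 2) K H q D (by linarith) c5 c6 hYX (by omega) hS (fun i => ⟨h1 i, h2 i⟩) hex (singQ q) hn)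
    (hcv z Y K H q (by linarith) c5 c7 (by omega) hS hdeg)

end Pool.Agent.Q145.LQ
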