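import Pool.Agent.Q145.LQ.Fin
import Pool.Agent.Q111.SZ.PWB

/-!
# Project LQ: the singular series of most systems, exceptional pairs
-/

set_option autoImplicit false

namespace Pool.Agent.Q145.LQ

open Finset Filter
open Pool.Agent.Q145.SZ

open Classical in
/-- conclusion of `S_TAILQ` -/
def S_TAILQ' : Prop := ∀ ε : ℝ, 0 < ε → ∃ (C : ℝ) (X₀ z₀ : ℕ), 0 < C ∧ ∀ (d z w Y X K : ℕ) (H : Fin K → ℕ) (q : Fin K → Polynomial ℤ), X₀ ≤ X → z₀ ≤ z → 1 ≤ d → 8 * d * (K + 1) ≤ z → Sys d z Y X H q →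
  (z : ℝ) ≤ Real.log X → (PW z : ℝ) ^ 20 ≤ X → z ≤ w → (w : ℝ) ^ 20 ≤ X → ∀ b : Fin K → ZMod (PW z),
  (((SbQ H b).filter fun s => ¬ (|singPQ q s w - singPQ q s z| ≤ ε * singPQ q s z)).card : ℝ) ≤ C / Real.log z * (SbQ H b).card

open Classical in
/-- conclusion of `S_FARQ` -/
def S_FARQ' : Prop := ∀ ε : ℝ, 0 < ε → ∃ X₀ : ℕ, ∀ (z Y K : ℕ) (H : Fin K → ℕ) (q : Fin K → Polynomial ℤ), X₀ ≤ Y → 16 * (K + 1) ≤ z → Sys 2 z Y (Y ^ 2) H q → (∀ i, (q i).natDegree = 2) →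
  (z : ℝ) ≤ Real.log Y → (PW z : ℝ) ^ 40 ≤ (Y : ℝ) ^ 2 → ∀ b : Fin K → ZMod (PW z),
  (((SbQ H b).filter fun s => ¬ (AdmQ q s → 0 < singQ q s ∧ Tendsto (singPQ q s) atTop (nhds (singQ q s)) ∧
    |singQ q s - singPQ q s (w0 (Y ^ 2))| ≤ ε * singPQ q s (w0 (Y ^ 2)))).card : ℝ) ≤ ε * (SbQ H b).card

lemma w0_pow_le {X : ℕ} (hX : 1 ≤ X) : ((w0 X : ℕ) : ℝ) ^ 20 ≤ X := by
  have h1 : w0 X ^ 20 ≤ X := by
    unfold w0
    rw [← pow_mul]
    refine le_trans (Nat.pow_le_pow_right (by norm_num) (?_ : Nat.log 2 X / 40 * 20 ≤ Nat.log 2 X)) (Nat.pow_log_le_self 2 (by omega))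
    omega
  exact_mod_cast h1

lemma le_w0 {X z : ℕ} (hX : 1 ≤ X) (h : 2 ^ 40 * z ^ 40 ≤ X) : z ≤ w0 X := by
  unfold w0
  by_contra hcon
  push Not at hcon
  have h1 : X < 2 ^ (Nat.log 2 X + 1) := Nat.lt_pow_succ_log_self (by norm_num) X
  have h2 : 2 ^ (Nat.log 2 X + 1) ≤ 2 ^ (40 * (Nat.log 2 X / 40) + 40) := Nat.pow_le_pow_right (by norm_num) (by omega)
  have h3 : 2 ^ (40 * (Nat.log 2 X / 40) + 40) = 2 ^ 40 * (2 ^ (Nat.log 2 X / 40)) ^ 40 := by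
    rw [pow_add, mul_comm, pow_mul, ← pow_mul, ← pow_mul, mul_comm 40 (Nat.log 2 X / 40)]
  have h4 : (2 ^ (Nat.log 2 X / 40)) ^ 40 ≤ z ^ 40 := Nat.pow_le_pow_left hcon.le 40
  have h5 : 2 ^ 40 * (2 ^ (Nat.log 2 X / 40)) ^ 40 ≤ 2 ^ 40 * z ^ 40 := Nat.mul_le_mul_left _ h4
  omega

lemma near_comb {P z w e e' : ℝ} (hP : 0 ≤ P) (he' : 0 ≤ e') (he'1 : e' ≤ 1) (he : 4 * e' ≤ e) (h1 : |w - P| ≤ e' * P) (h2 : |z - w| ≤ e' * w) :
    |z - P| ≤ e * P := by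
  rw [abs_le] at h1 h2 ⊢
  obtain ⟨a1, a2⟩ := h1
  obtain ⟨b1, b2⟩ := h2
  have h3 : w ≤ 2 * P := by nlinarith
  have h4 : e' * w ≤ e' * (2 * P) := mul_le_mul_of_nonneg_left h3 he'
  have h5 : 4 * e' * P ≤ e * P := mul_le_mul_of_nonneg_right he hP
  have h6 : 0 ≤ e' * P := mul_nonneg he' hP
  constructor <;> nlinarith

lemma singPQ_nonneg {K : ℕ} (q : Fin K → Polynomial ℤ) (s : Fin K → ℕ) (w : ℕ) : 0 ≤ singPQ q s w := by
  unfold singPQ
  apply prod_nonneg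
  intro p hp
  rw [mem_filter] at hp
  have hp2 := hp.2.two_le
  have hp0 : (0 : ℝ) < p := by positivity
  unfold locQ
  apply div_nonneg
  · rw [sub_nonneg, div_le_one hp0]
    have : nuQ q s p ≤ p := by
      unfold nuQ
      refine (card_filter_le _ _).trans ?_
      rw [card_range]
    exact_mod_cast this
  · apply pow_nonneg
    rw [sub_nonneg, div_le_one hp0]
    exact_mod_cast hp.2.one_lt.le

open Classical in
/-- the truncated series (general degree) -/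
theorem near_trunc (tail : S_TAILQ') : ∀ e δ : ℝ, 0 < e → 0 < δ → ∃ M : ℝ, 64 ≤ M ∧ ∀ (d z w Y X K : ℕ) (H : Fin K → ℕ) (q : Fin K → Polynomial ℤ), M ≤ Real.log (Real.log X) →
    64 * Real.log (Real.log X) ≤ z → 64 * z * Real.log (Real.log X) ≤ Real.log Y → Y ≤ X → 1 ≤ d → 8 * d * (K + 1) ≤ z → Sys d z Y X H q → z ≤ w → (w : ℝ) ^ 20 ≤ X →
    NearQ z H q (fun s => singPQ q s w) e δ := by
  intro e δ he hδ
  obtain ⟨C, X₀, z₀, hC, ht⟩ := tail e he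
  set M : ℝ := 64 + X₀ + z₀ + Real.exp (C / δ) with hM
  have p1 := Real.exp_pos (C / δ)
  have p2 : (0 : ℝ) ≤ X₀ := by positivity
  have p3 : (0 : ℝ) ≤ z₀ := by positivity
  have hM64 : 64 ≤ M := by linarith
  refine ⟨M, hM64, ?_⟩
  intro d z w Y X K H q hX hz hzY hYX hd hK hS hzw hw b
  obtain ⟨hL0, hLM, hzM, hzL, hzl, hXe, hYe, hLe, hl64, hlL, hYXl⟩ := elemQ hM64 hX hYX hz hzY
  have hXL : Real.log X ≤ X := by
    have := Real.add_one_le_exp (Real.log X)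
    rw [← hXe] at this; linarith
  have hX0 : X₀ ≤ X := by
    have : (X₀ : ℝ) ≤ X := by linarith
    exact_mod_cast this
  have hz0 : z₀ ≤ z := by
    have : (z₀ : ℝ) ≤ z := by linarith
    exact_mod_cast this
  have hzpos : (0 : ℝ) < z := by linarith
  have hW20 : (PW z : ℝ) ^ 20 ≤ X := by
    calc (PW z : ℝ) ^ 20 ≤ (Real.exp (2 * z)) ^ 20 := by gcongr; exact PW_le Pool.Agent.Q111.SZ.t_PWB z
      _ = Real.exp (40 * z) := by rw [← Real.exp_nat_mul]; ring_nf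
      _ ≤ Real.exp (Real.log X) := Real.exp_le_exp.2 (by linarith)
      _ = X := hXe.symm
  have h1 := ht d z w Y X K H q hX0 hz0 hd hK hS (by linarith) hW20 hzw hw b
  have hlz : C / δ ≤ Real.log z := by
    rw [Real.le_log_iff_exp_le hzpos]
    linarith
  have hlz0 : 0 < Real.log z := lt_of_lt_of_le (by positivity) hlz
  have h2 : C / Real.log z ≤ δ := by
    rw [div_le_iff₀ hlz0]
    rw [div_le_iff₀ hδ] at hlz
    linarith
  have h3 : (0 : ℝ) ≤ (SbQ H b).card := Nat.cast_nonneg _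
  have h4 : (((SbQ H b).filter fun s => ¬ (AdmQ q s → |singPQ q s w - singPQ q s z| ≤ e * singPQ q s z)).card : ℝ) ≤
      (((SbQ H b).filter fun s => ¬ (|singPQ q s w - singPQ q s z| ≤ e * singPQ q s z)).card : ℝ) := by
    have : ((SbQ H b).filter fun s => ¬ (AdmQ q s → |singPQ q s w - singPQ q s z| ≤ e * singPQ q s z)) ⊆
        ((SbQ H b).filter fun s => ¬ (|singPQ q s w - singPQ q s z| ≤ e * singPQ q s z)) := by
      intro s hs
      rw [mem_filter] at hs ⊢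
      refine ⟨hs.1, fun h => hs.2 fun _ => h⟩
    exact_mod_cast card_le_card this
  exact h4.trans (h1.trans (mul_le_mul_of_nonneg_right h2 h3))

open Classical in
/-- the full series of quadratic systems -/
theorem near_quad (tail : S_TAILQ') (far : S_FARQ') : ∀ e δ : ℝ, 0 < e → 0 < δ → ∃ M : ℝ, 64 ≤ M ∧ ∀ (z Y K : ℕ) (H : Fin K → ℕ) (q : Fin K → Polynomial ℤ), M ≤ Real.log (Real.log ((Y ^ 2 : ℕ) : ℝ)) →
    64 * Real.log (Real.log ((Y ^ 2 : ℕ) : ℝ)) ≤ z → 64 * z * Real.log (Real.log ((Y ^ 2 : ℕ) : ℝ)) ≤ Real.log Y → 16 * (K + 1) ≤ z → Sys 2 z Y (Y ^ 2) H q →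
    (∀ i, (q i).natDegree = 2) → NearQ z H q (singQ q) e δ := by
  intro e δ he hδ
  set e' : ℝ := min (min e 1 / 4) (δ / 2) with he'
  have he'0 : 0 < e' := by positivity
  have he'a : 4 * e' ≤ e := by
    have h1 : e' ≤ min e 1 / 4 := min_le_left _ _
    have h2 : min e 1 ≤ e := min_le_left _ _
    linarith
  have he'b : e' ≤ 1 := by
    have h1 : e' ≤ min e 1 / 4 := min_le_left _ _
    have h2 : min e 1 ≤ 1 := min_le_right _ _
    linarith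
  have he'c : e' ≤ δ / 2 := min_le_right _ _
  obtain ⟨M₁, hM₁, ht⟩ := near_trunc tail e' (δ / 2) he'0 (by positivity)
  obtain ⟨Y₀, hf⟩ := far e' he'0
  set M : ℝ := M₁ + Y₀ with hM
  have p2 : (0 : ℝ) ≤ Y₀ := by positivity
  have hM64 : 64 ≤ M := by linarith
  refine ⟨M, hM64, ?_⟩
  intro z Y K H q hX hz hzY hK hS hdeg b
  have hY1 : 1 ≤ Y := by
    rcases Nat.eq_zero_or_pos Y with h | h
    · rw [h] at hX
      simp at hX
      linarith
    · exact h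
  have hYX : Y ≤ Y ^ 2 := by nlinarith
  obtain ⟨hL0, hLM, hzM, hzL, hzl, hXe, hYe, hLe, hl64, hlL, hYXl⟩ := elemQ hM64 hX hYX hz hzY
  have hz0 : (0 : ℝ) < z := by linarith
  have hzl' : 64 * (z : ℝ) ≤ z * Real.log (Real.log ((Y ^ 2 : ℕ) : ℝ)) := by nlinarith
  have hzLY : 4096 * (z : ℝ) ≤ Real.log Y := by linarith
  have hY0 : (0 : ℝ) < Y := by exact_mod_cast hY1
  have hLYY : Real.log Y ≤ Y := by
    have := Real.add_one_le_exp (Real.log Y)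
    rw [← hYe] at this; linarith
  have hY₀ : Y₀ ≤ Y := by
    have : (Y₀ : ℝ) ≤ Y := by linarith
    exact_mod_cast this
  have hW40 : (PW z : ℝ) ^ 40 ≤ (Y : ℝ) ^ 2 := by
    calc (PW z : ℝ) ^ 40 ≤ (Real.exp (2 * z)) ^ 40 := by gcongr; exact PW_le Pool.Agent.Q111.SZ.t_PWB z
      _ = Real.exp (80 * z) := by rw [← Real.exp_nat_mul]; ring_nf
      _ ≤ Real.exp (2 * Real.log Y) := Real.exp_le_exp.2 (by linarith)
      _ = (Y : ℝ) ^ 2 := by rw [show (2 : ℝ) = ((2 : ℕ) : ℝ) by norm_num, Real.exp_nat_mul, ← hYe]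
  have hzw : z ≤ w0 (Y ^ 2) := by
    apply le_w0 (by nlinarith)
    have h1 : ((2 ^ 40 * z ^ 40 : ℕ) : ℝ) ≤ ((Y ^ 2 : ℕ) : ℝ) := by
      rw [Nat.cast_mul, Nat.cast_pow, Nat.cast_pow, Nat.cast_pow, Nat.cast_ofNat]
      have h2 : (2 : ℝ) ≤ Real.exp z := by
        have := Real.add_one_le_exp (z : ℝ)
        linarith
      have h3 : (z : ℝ) ≤ Real.exp z := by
        have := Real.add_one_le_exp (z : ℝ)
        linarith
      calc (2 : ℝ) ^ 40 * (z : ℝ) ^ 40 ≤ (Real.exp z) ^ 40 * (Real.exp z) ^ 40 := by gcongr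
        _ = Real.exp (80 * z) := by rw [← Real.exp_nat_mul, ← Real.exp_add]; ring_nf
        _ ≤ Real.exp (2 * Real.log Y) := Real.exp_le_exp.2 (by linarith)
        _ = (Y : ℝ) ^ 2 := by rw [show (2 : ℝ) = ((2 : ℕ) : ℝ) by norm_num, Real.exp_nat_mul, ← hYe]
    exact_mod_cast h1
  have h1 := ht 2 z (w0 (Y ^ 2)) Y (Y ^ 2) K H q (by linarith) hz hzY hYX (by norm_num) (by omega) hS hzw (w0_pow_le (by nlinarith)) b
  have h2 := hf z Y K H q hY₀ hK hS hdeg (by linarith) hW40 b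
  have h3 : (0 : ℝ) ≤ (SbQ H b).card := Nat.cast_nonneg _
  have hsub : ((SbQ H b).filter fun s => ¬ (AdmQ q s → |singQ q s - singPQ q s z| ≤ e * singPQ q s z)) ⊆
      ((SbQ H b).filter fun s => ¬ (AdmQ q s → |singPQ q s (w0 (Y ^ 2)) - singPQ q s z| ≤ e' * singPQ q s z)) ∪
      ((SbQ H b).filter fun s => ¬ (AdmQ q s → 0 < singQ q s ∧ Tendsto (singPQ q s) atTop (nhds (singQ q s)) ∧
        |singQ q s - singPQ q s (w0 (Y ^ 2))| ≤ e' * singPQ q s (w0 (Y ^ 2)))) := by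
    intro s hs
    rw [mem_filter] at hs
    obtain ⟨hs1, hs2⟩ := hs
    rw [mem_union, mem_filter, mem_filter]
    by_contra hcon
    rw [not_or] at hcon
    obtain ⟨c1, c2⟩ := hcon
    have c1 : AdmQ q s → |singPQ q s (w0 (Y ^ 2)) - singPQ q s z| ≤ e' * singPQ q s z := by
      by_contra h
      exact c1 ⟨hs1, h⟩
    have c2 : AdmQ q s → 0 < singQ q s ∧ Tendsto (singPQ q s) atTop (nhds (singQ q s)) ∧
        |singQ q s - singPQ q s (w0 (Y ^ 2))| ≤ e' * singPQ q s (w0 (Y ^ 2)) := by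
      by_contra h
      exact c2 ⟨hs1, h⟩
    apply hs2
    intro had
    exact near_comb (singPQ_nonneg q s z) he'0.le he'b he'a (c1 had) (c2 had).2.2
  have h4 := (card_le_card hsub).trans (card_union_le _ _)
  have h5 : ((((SbQ H b).filter fun s => ¬ (AdmQ q s → |singQ q s - singPQ q s z| ≤ e * singPQ q s z))).card : ℝ) ≤
      ((((SbQ H b).filter fun s => ¬ (AdmQ q s → |singPQ q s (w0 (Y ^ 2)) - singPQ q s z| ≤ e' * singPQ q s z))).card : ℝ) +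
      ((((SbQ H b).filter fun s => ¬ (AdmQ q s → 0 < singQ q s ∧ Tendsto (singPQ q s) atTop (nhds (singQ q s)) ∧
        |singQ q s - singPQ q s (w0 (Y ^ 2))| ≤ e' * singPQ q s (w0 (Y ^ 2))))).card : ℝ) := by exact_mod_cast h4
  have h6 : e' * ((SbQ H b).card : ℝ) ≤ δ / 2 * ((SbQ H b).card : ℝ) := mul_le_mul_of_nonneg_right he'c h3
  have h7 : δ / 2 * ((SbQ H b).card : ℝ) + δ / 2 * ((SbQ H b).card : ℝ) = δ * ((SbQ H b).card : ℝ) := by ring
  linarith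

end Pool.Agent.Q145.LQ
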