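import Pool.Agent.Q145.LQ.All

/-!
# Project LQ: all degrees, on average over the coefficients of `n` and `1`
-/

set_option autoImplicit false

namespace Pool.Agent.Q145.LQ

open Finset Filter
open Pool.Agent.Q145.SZ
open Pool.Agent.Q145.LS (SUFP SUFc case1 case2 dich)

/-- the polynomials `G_i + t_i x` -/
noncomputable def qt {K : ℕ} (G : Fin K → Polynomial ℤ) (t : Fin K → ℕ) : Fin K → Polynomial ℤ := fun i => G i + Polynomial.C (t i : ℤ) * Polynomial.X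

/-- families of systems -/
structure SysT (d z Y X : ℕ) {K : ℕ} (H T : Fin K → ℕ) (G : Fin K → Polynomial ℤ) : Prop where
  sys : ∀ t ∈ Fintype.piFinset (fun i => Icc 1 (T i)), Sys d z Y X H (qt G t)
  pos : ∀ i, 1 ≤ T i
  rng : ∀ i, X ≤ z * Y * T i

lemma SysT.mono {d z z' Y X K : ℕ} {H T : Fin K → ℕ} {G : Fin K → Polynomial ℤ} (h : SysT d z Y X H T G) (hz : z ≤ z') : SysT d z' Y X H T G where
  sys := fun t ht => (h.sys t ht).mono hz
  pos := h.pos
  rng := fun i => (h.rng i).trans (Nat.mul_le_mul_right _ (Nat.mul_le_mul_right _ hz))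

/-- few tuples have a bad coordinate -/
lemma card_bad {K : ℕ} (A B : Fin K → Finset ℕ) {δ : ℝ} (h : ∀ i, ((B i).card : ℝ) ≤ δ * (A i).card) :
    ((((Fintype.piFinset A).filter fun t => ∃ i, t i ∈ B i).card : ℕ) : ℝ) ≤ K * δ * ((Fintype.piFinset A).card : ℝ) := by
  classical
  have hsub : ((Fintype.piFinset A).filter fun t => ∃ i, t i ∈ B i) ⊆ univ.biUnion fun i => Fintype.piFinset (Function.update A i (B i)) := by
    intro t ht
    rw [mem_filter] at ht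
    obtain ⟨h1, i, hi⟩ := ht
    rw [mem_biUnion]
    refine ⟨i, mem_univ i, ?_⟩
    rw [Fintype.mem_piFinset] at h1 ⊢
    intro j
    by_cases hj : j = i
    · subst hj
      rw [Function.update_self]
      exact hi
    · rw [Function.update_of_ne hj]
      exact h1 j
  have h2 := (card_le_card hsub).trans card_biUnion_le
  have h3 : ((((Fintype.piFinset A).filter fun t => ∃ i, t i ∈ B i).card : ℕ) : ℝ) ≤ ∑ i : Fin K, ((Fintype.piFinset (Function.update A i (B i))).card : ℝ) := by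
    exact_mod_cast h2
  refine h3.trans ?_
  have h4 : ∀ i : Fin K, ((Fintype.piFinset (Function.update A i (B i))).card : ℝ) ≤ δ * ((Fintype.piFinset A).card : ℝ) := by
    intro i
    rw [Fintype.card_piFinset, Fintype.card_piFinset, ← mul_prod_erase univ (fun j => (A j).card) (mem_univ i),
      ← mul_prod_erase univ (fun j => (Function.update A i (B i) j).card) (mem_univ i)]
    have e : ∏ j ∈ univ.erase i, (Function.update A i (B i) j).card = ∏ j ∈ univ.erase i, (A j).card := by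
      refine prod_congr rfl fun j hj => ?_
      rw [Function.update_of_ne (ne_of_mem_erase hj)]
    rw [e, Function.update_self]
    push_cast
    rw [← mul_assoc]
    apply mul_le_mul_of_nonneg_right (h i)
    exact prod_nonneg fun j _ => Nat.cast_nonneg _
  calc _ ≤ ∑ _i : Fin K, δ * ((Fintype.piFinset A).card : ℝ) := sum_le_sum fun i _ => h4 i
    _ = K * δ * ((Fintype.piFinset A).card : ℝ) := by rw [sum_const, card_univ, Fintype.card_fin, nsmul_eq_mul]; ring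

open Classical in
/-- for most `t` few pairs are exceptional -/
theorem exq_t (prt : S_PRT) (tau : S_TAU) (a₀ : ℕ) : ∀ ε : ℝ, 0 < ε → ∃ M : ℝ, 64 ≤ M ∧ ∀ (d z Y X K : ℕ) (H T : Fin K → ℕ) (G : Fin K → Polynomial ℤ) (D : Fin K → Finset ℕ),
    M ≤ Real.log (Real.log X) → 64 * Real.log (Real.log X) ≤ z → 64 * z * Real.log (Real.log X) ≤ Real.log Y → Y ≤ X → K ≤ z →
    SysT d z Y X H T G → (∀ i, D i ⊆ Icc 1 (H i) ∧ ((D i).card : ℝ) ≤ (H i : ℝ) / (PW z : ℝ) ^ (4 * a₀ + 40)) →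
    ((((Fintype.piFinset fun i => Icc 1 (T i)).filter fun t => ¬ (((exq Y (qt G t) D).card : ℝ) ≤ (Y : ℝ) ^ 2 / (PW z : ℝ) ^ (2 * (a₀ + 8)))).card : ℕ) : ℝ) ≤
      ε * ∏ i, (T i : ℝ) := by
  intro ε hε
  obtain ⟨Ct, hCt, ht⟩ := tau
  obtain ⟨z₁, hz₁⟩ := Pool.Agent.Q111.SZ.t_PWB.2
  set M : ℝ := 64 + 16 * Ct + z₁ + 1 / ε with hM
  have p1 : 0 < 1 / ε := by positivity
  have p2 : (0 : ℝ) ≤ z₁ := by positivity
  have hM64 : 64 ≤ M := by linarith
  refine ⟨M, hM64, ?_⟩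
  intro d z Y X K H T G D hX hz hzY hYX hK hS hD
  obtain ⟨hL0, hLM, hzM, hzL, hzl, hXe, hYe, hLe, hl64, hlL, hYXl⟩ := elemQ hM64 hX hYX hz hzY
  have hscale := fun (Z : ℕ) (h1 : X ≤ Z) (h2 : Z ≤ z * X) => scaleQ hl64 hz (by linarith) h1 h2
  set L := Real.log X with hL
  set l := Real.log L with hl
  have hz0 : (0 : ℝ) < z := by linarith
  have hY0 : (0 : ℝ) < Y := by rw [hYe]; exact Real.exp_pos _
  have hX0 : (0 : ℝ) < X := by rw [hXe]; exact Real.exp_pos _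
  have hz1 : z₁ ≤ z := by
    have : (z₁ : ℝ) ≤ z := by linarith
    exact_mod_cast this
  have hW := hz₁ z hz1
  have hW1 := one_le_PW z
  set W : ℝ := (PW z : ℝ) with hWd
  have hW0 : 0 < W := by linarith
  have hL1 : 1 ≤ L := by linarith
  have hLW : L ^ 32 ≤ W := by
    calc L ^ 32 = Real.exp (32 * l) := by
          rw [hLe, show (32 : ℝ) = ((32 : ℕ) : ℝ) by norm_num, Real.exp_nat_mul]
      _ ≤ Real.exp ((z : ℝ) / 2) := Real.exp_le_exp.2 (by linarith)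
      _ ≤ W := hW
  have hL6 : L ^ 6 ≤ W := (pow_le_pow_right₀ hL1 (by norm_num)).trans hLW
  have hXL : L ≤ X := by
    have := Real.add_one_le_exp L
    rw [← hXe] at this; linarith
  have hX3 : 3 ≤ X := by
    have : (3 : ℝ) ≤ X := by linarith
    exact_mod_cast this
  rcases Nat.eq_zero_or_pos K with hK0 | hK0
  · subst hK0
    have e : ((Fintype.piFinset fun i => Icc 1 (T i)).filter fun t => ¬ (((exq Y (qt G t) D).card : ℝ) ≤ (Y : ℝ) ^ 2 / W ^ (2 * (a₀ + 8)))) = ∅ := by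
      apply filter_eq_empty_iff.2
      intro t _
      rw [not_not]
      have : (exq Y (qt G t) D) = ∅ := by
        unfold exq
        apply filter_eq_empty_iff.2
        rintro x _ ⟨i, _⟩
        exact i.elim0
      rw [this]
      simp
      positivity
    rw [e]
    simp
    positivity
  have hKz : (K : ℝ) ≤ z := by exact_mod_cast hK
  have hK1 : (1 : ℝ) ≤ K := by exact_mod_cast hK0
  have hKp : (0 : ℝ) < K := by linarith
  have hzLr : (z : ℝ) ≤ L := by linarith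
  have hCtL : 16 * Ct ≤ L := by linarith
  -- pairs for one coordinate
  set N : Fin K → ℕ → ℝ := fun i t => (((((Ioc Y (2 * Y)) ×ˢ (Ioc Y (2 * Y))).filter fun x : ℕ × ℕ =>
    dst (vq (G i + Polynomial.C (t : ℤ) * Polynomial.X) x.1) (vq (G i + Polynomial.C (t : ℤ) * Polynomial.X) x.2) ∈ D i).card : ℕ) : ℝ) with hN
  have hN0 : ∀ i t, 0 ≤ N i t := fun i t => Nat.cast_nonneg _
  -- a base point
  set t₀ : Fin K → ℕ := fun _ => 1 with ht₀
  have ht₀m : t₀ ∈ Fintype.piFinset (fun i => Icc 1 (T i)) := by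
    rw [Fintype.mem_piFinset]
    intro i
    rw [mem_Icc]
    exact ⟨le_rfl, hS.pos i⟩
  have hnn : ∀ i, ∀ t ∈ Icc 1 (T i), ∀ n ∈ Ioc Y (2 * Y), 0 ≤ (G i + Polynomial.C (t : ℤ) * Polynomial.X).eval (n : ℤ) := by
    intro i t hti n hn
    have hm : Function.update t₀ i t ∈ Fintype.piFinset (fun i => Icc 1 (T i)) := by
      rw [Fintype.mem_piFinset] at ht₀m ⊢
      intro j
      by_cases hj : j = i
      · subst hj
        rw [Function.update_self]
        exact hti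
      · rw [Function.update_of_ne hj]
        exact ht₀m j
    have h1 := (hS.sys _ hm).nonneg i hn
    unfold qt at h1
    rw [Function.update_self] at h1
    exact h1
  have hsc : ∀ i, X ≤ H i ∧ H i ≤ z * X := fun i => (hS.sys t₀ ht₀m).scale i
  have key : ∀ i, ∑ t ∈ Icc 1 (T i), N i t ≤ L ^ 5 * (Y : ℝ) ^ 2 * T i / W ^ (2 * a₀ + 20) := by
    intro i
    obtain ⟨s1, s2, s3, s4⟩ := hscale _ (hsc i).1 (hsc i).2
    have h0 : 0 ∉ D i := fun h => by
      have := (hD i).1 h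
      rw [mem_Icc] at this
      omega
    have h1 := prt Y (T i) (G i) (D i) (hnn i) h0
    have hDc := (hD i).2
    rw [show 4 * a₀ + 40 = 2 * (2 * a₀ + 20) by ring] at hDc
    have h2 := tau_small (L := L) hCt hW1 (hX3.trans (hsc i).1) ht (hD i).1 hDc s2
    have hHle : (H i : ℝ) ≤ z * X := by
      have h3 : ((H i : ℕ) : ℝ) ≤ ((z * X : ℕ) : ℝ) := by exact_mod_cast (hsc i).2
      push_cast at h3
      exact h3
    have hXle : (X : ℝ) ≤ z * Y * T i := by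
      have h3 : ((X : ℕ) : ℝ) ≤ ((z * Y * T i : ℕ) : ℝ) := by exact_mod_cast hS.rng i
      push_cast at h3
      exact h3
    have hT0 : (0 : ℝ) ≤ T i := Nat.cast_nonneg _
    calc _ ≤ 4 * Y * ∑ h ∈ D i, (h.divisors.card : ℝ) := h1
      _ ≤ 4 * Y * (4 * Ct * L ^ 2 * H i / W ^ (2 * a₀ + 20)) := by gcongr
      _ ≤ 4 * Y * (4 * Ct * L ^ 2 * (z * (z * Y * T i)) / W ^ (2 * a₀ + 20)) := by
        gcongr
        exact hHle.trans (by gcongr)
      _ = (16 * Ct) * L ^ 2 * (z * z) * (Y : ℝ) ^ 2 * T i / W ^ (2 * a₀ + 20) := by ring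
      _ ≤ L * L ^ 2 * (L * L) * (Y : ℝ) ^ 2 * T i / W ^ (2 * a₀ + 20) := by gcongr
      _ = _ := by ring
  -- bad values of `t`
  set B : Fin K → Finset ℕ := fun i => (Icc 1 (T i)).filter fun t => (Y : ℝ) ^ 2 / (K * W ^ (2 * (a₀ + 8))) < N i t with hB
  have hBc : ∀ i, ((B i).card : ℝ) ≤ (1 / W ^ 3) * ((Icc 1 (T i)).card : ℝ) := by
    intro i
    have hp : 0 < (Y : ℝ) ^ 2 / (K * W ^ (2 * (a₀ + 8))) := by positivity
    have h1 : ((B i).card : ℝ) * ((Y : ℝ) ^ 2 / (K * W ^ (2 * (a₀ + 8)))) ≤ ∑ t ∈ Icc 1 (T i), N i t := by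
      calc ((B i).card : ℝ) * ((Y : ℝ) ^ 2 / (K * W ^ (2 * (a₀ + 8)))) = ∑ _t ∈ B i, (Y : ℝ) ^ 2 / (K * W ^ (2 * (a₀ + 8))) := by
            rw [sum_const, nsmul_eq_mul]
        _ ≤ ∑ t ∈ B i, N i t := sum_le_sum fun t ht => (mem_filter.1 ht).2.le
        _ ≤ ∑ t ∈ Icc 1 (T i), N i t := sum_le_sum_of_subset_of_nonneg (filter_subset _ _) fun t _ _ => hN0 i t
    have h2 := h1.trans (key i)
    rw [← le_div_iff₀ hp] at h2
    refine h2.trans ?_
    rw [Nat.card_Icc, Nat.add_sub_cancel]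
    have hT0 : (0 : ℝ) ≤ T i := Nat.cast_nonneg _
    calc L ^ 5 * (Y : ℝ) ^ 2 * T i / W ^ (2 * a₀ + 20) / ((Y : ℝ) ^ 2 / (K * W ^ (2 * (a₀ + 8))))
        = L ^ 5 * K * T i / W ^ 4 := by
          rw [show 2 * a₀ + 20 = 2 * (a₀ + 8) + 4 by ring, pow_add]
          field_simp
      _ ≤ L ^ 5 * L * T i / W ^ 4 := by gcongr; linarith
      _ = L ^ 6 * T i / W ^ 4 := by ring
      _ ≤ W * T i / W ^ 4 := by gcongr
      _ = 1 / W ^ 3 * T i := by field_simp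
  have hcb := card_bad (fun i => Icc 1 (T i)) B hBc
  have hsub : ((Fintype.piFinset fun i => Icc 1 (T i)).filter fun t => ¬ (((exq Y (qt G t) D).card : ℝ) ≤ (Y : ℝ) ^ 2 / W ^ (2 * (a₀ + 8)))) ⊆
      ((Fintype.piFinset fun i => Icc 1 (T i)).filter fun t => ∃ i, t i ∈ B i) := by
    intro t htt
    rw [mem_filter] at htt ⊢
    refine ⟨htt.1, ?_⟩
    by_contra hcon
    push Not at hcon
    apply htt.2
    have hmem := htt.1
    rw [Fintype.mem_piFinset] at hmem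
    calc ((exq Y (qt G t) D).card : ℝ) ≤ ∑ i, N i (t i) := exq_le Y (qt G t) D
      _ ≤ ∑ _i : Fin K, (Y : ℝ) ^ 2 / (K * W ^ (2 * (a₀ + 8))) := by
        apply sum_le_sum
        intro i _
        by_contra h
        exact hcon i (mem_filter.2 ⟨hmem i, not_le.1 h⟩)
      _ = (Y : ℝ) ^ 2 / W ^ (2 * (a₀ + 8)) := by
        rw [sum_const, card_univ, Fintype.card_fin, nsmul_eq_mul]
        field_simp
  have h5 : ((((Fintype.piFinset fun i => Icc 1 (T i)).filter fun t => ¬ (((exq Y (qt G t) D).card : ℝ) ≤ (Y : ℝ) ^ 2 / W ^ (2 * (a₀ + 8)))).card : ℕ) : ℝ) ≤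
      ((((Fintype.piFinset fun i => Icc 1 (T i)).filter fun t => ∃ i, t i ∈ B i).card : ℕ) : ℝ) := by exact_mod_cast card_le_card hsub
  have hcard : ((Fintype.piFinset fun i => Icc 1 (T i)).card : ℝ) = ∏ i, (T i : ℝ) := by
    rw [Fintype.card_piFinset]
    push_cast
    refine prod_congr rfl fun i _ => ?_
    rw [Nat.card_Icc, Nat.add_sub_cancel]
  have h6 : (K : ℝ) * (1 / W ^ 3) ≤ ε := by
    have hLε : 1 / ε ≤ L := by linarith
    have h7 : 1 ≤ ε * L := by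
      rw [div_le_iff₀ hε] at hLε
      linarith
    have h8 : (K : ℝ) ≤ L := by linarith
    have h9 : L ^ 2 ≤ W ^ 3 := by
      calc L ^ 2 ≤ L ^ 32 := pow_le_pow_right₀ hL1 (by norm_num)
        _ ≤ W := hLW
        _ = W ^ 1 := (pow_one W).symm
        _ ≤ W ^ 3 := pow_le_pow_right₀ hW1 (by norm_num)
    rw [mul_one_div, div_le_iff₀ (by positivity)]
    calc (K : ℝ) ≤ L * 1 := by linarith
      _ ≤ L * (ε * L) := by gcongr
      _ = ε * L ^ 2 := by ring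
      _ ≤ ε * W ^ 3 := by gcongr
  have h10 : (0 : ℝ) ≤ ∏ i, (T i : ℝ) := prod_nonneg fun i _ => Nat.cast_nonneg _
  rw [hcard] at hcb
  exact h5.trans (hcb.trans (mul_le_mul_of_nonneg_right h6 h10))

lemma PW_mono {z z' : ℕ} (h : z ≤ z') : PW z ≤ PW z' := by
  unfold PW
  apply prod_le_prod_of_subset_of_one_le'
  · intro p hp
    rw [mem_filter, mem_Icc] at hp ⊢
    exact ⟨⟨hp.1.1, hp.1.2.trans h⟩, hp.2⟩
  · intro p hp _
    exact (mem_filter.1 hp).2.pos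

lemma ZF_mono {F F' : ℕ} {ω T : ℝ} (h : F ≤ F') (hZ : ZF F' ω T) : ZF F ω T := by
  intro f _ hf hfF χ hχ s hs him
  exact hZ f hf (hfF.trans h) χ hχ s hs him

open Classical in
/-- the result for all degrees -/
def PF (d : ℕ) (C : ℝ) (X Q : ℕ) (ε : ℝ) : Prop := ∀ (Y K w : ℕ) (H T : Fin K → ℕ) (G : Fin K → Polynomial ℤ),
  C * ((Q + Real.log (Real.log X)) * Real.log (Real.log X)) ≤ Real.log Y → Y ≤ X → 2 * (d + 1) * (K + 1) ≤ Q →
  SysT d Q Y X H T G → Real.log X ≤ w → (w : ℝ) ^ 20 ≤ X →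
  ((((Fintype.piFinset fun i => Icc 1 (T i)).filter fun t => ¬ HLQ Y H (qt G t) (fun s => singPQ (qt G t) s w) ε).card : ℕ) : ℝ) ≤ ε * ∏ i, (T i : ℝ)

open Classical in
theorem sufF (d : ℕ) (hd : 1 ≤ d) : ∃ C : ℝ, 0 < C ∧ SUFP (PF d C) := by
  obtain ⟨a₀, κ, hκ, vb⟩ := vbq d
  obtain ⟨B, C₀, hB, hC₀, hin⟩ := inputs t_ANQ Pool.Agent.Q53.LQ.H2U.main (2 * (a₀ + 11)) (4 * a₀ + 40) (by omega)
  have hκr : (64 : ℝ) ≤ κ := by exact_mod_cast hκ
  refine ⟨κ * (17 + C₀), by positivity, B, C₀ + 1, hB, by linarith, fun ε hε => ?_⟩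
  obtain ⟨M₁, hM₁, hexq⟩ := exq_t t_PRT t_TAU a₀ ε hε
  obtain ⟨M₂, hM₂, hnear⟩ := near_trunc tailq' (min ε 1 / 16) (ε / 8) (by positivity) (by positivity)
  obtain ⟨M₃, hM₃, hh⟩ := hls_boundQ hκ vb t_MBQ Pool.Agent.Q210.LQ.t_TRANSQ t_WCBQ Pool.Agent.Q111.SZ.t_PWB ε hε
  refine ⟨M₁ + M₂ + M₃ + C₀ + 1, by linarith, ?_⟩
  intro z₁ X ω T hl hz₁ hzL₁ hω hω4 hωL hT hTz₁ hTL hZF₁ Q hQ₁ Y K w H Tt G hYl hYX hKQ hSys hw1 hw2
  set l := Real.log (Real.log X) with hldef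
  have hl0 : 0 < l := by linarith
  have hl1 : 1 ≤ l := by linarith
  -- the smaller sieve level
  set z : ℕ := max (16 * Q) ⌈C₀ * l⌉₊ with hzdef
  have hzz : z ≤ z₁ := by
    apply max_le hQ₁
    apply Nat.ceil_le.2
    refine le_trans ?_ hz₁
    nlinarith
  have hz : C₀ * l ≤ z := (Nat.le_ceil _).trans (by exact_mod_cast le_max_right _ _)
  have hQ16 : 16 * Q ≤ z := le_max_left _ _
  have hzub : (z : ℝ) ≤ 16 * Q + C₀ * l + 1 := by
    have h1 : (⌈C₀ * l⌉₊ : ℝ) ≤ C₀ * l + 1 := (Nat.ceil_lt_add_one (by positivity)).le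
    have h2 : (z : ℝ) = max ((16 * Q : ℕ) : ℝ) (⌈C₀ * l⌉₊ : ℝ) := by
      rw [hzdef]
      push_cast
      rfl
    have h3 : 0 ≤ (Q : ℝ) := Nat.cast_nonneg _
    have h4 : 0 ≤ C₀ * l := by positivity
    rw [h2]
    apply max_le
    · push_cast
      linarith
    · linarith
  have hzzr : (z : ℝ) ≤ z₁ := by exact_mod_cast hzz
  have hz0 : (0 : ℝ) ≤ z := by positivity
  have hlog0 : 0 ≤ Real.log X := Real.log_natCast_nonneg X
  have hC₀0 : 0 ≤ C₀ := by linarith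
  have hz₁0 : (0 : ℝ) ≤ z₁ := by positivity
  have hC₀l : 0 ≤ C₀ * l := by positivity
  have hzl0 : 0 ≤ (z₁ : ℝ) * l := by positivity
  have hS : SysT d z Y X H Tt G := hSys.mono (by omega)
  have c2 : C₀ * z * l ≤ Real.log X := by
    have h1 : C₀ * z * l ≤ C₀ * z₁ * l := by gcongr
    nlinarith
  have c3 : C₀ * l ≤ ω * Real.log X := by nlinarith
  have c4 : 7 * √(Real.log X) ≤ Real.log T := by
    refine le_trans ?_ hTL
    have := Real.sqrt_nonneg (Real.log X)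
    linarith
  have hTz : 120 * B * z ≤ Real.log T := by
    refine le_trans ?_ hTz₁
    gcongr
  have hZF : ZF (PW z ^ B) ω T := ZF_mono (Nat.pow_le_pow_left (PW_mono hzz) B) hZF₁
  have c5 : 64 * l ≤ z := by
    have : (64 : ℝ) * l ≤ C₀ * l := by gcongr
    linarith
  have c6 : (κ : ℝ) * z * l ≤ Real.log Y := by
    refine le_trans ?_ hYl
    have h1 : (z : ℝ) ≤ (17 + C₀) * (Q + l) := by
      have h3 : 0 ≤ (Q : ℝ) := Nat.cast_nonneg _
      have h4 : 0 ≤ C₀ * Q := by positivity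
      nlinarith
    calc (κ : ℝ) * z * l ≤ κ * ((17 + C₀) * (Q + l)) * l := by gcongr
      _ = _ := by ring
  have c7 : 64 * z * l ≤ Real.log Y := by
    have h1 : (64 : ℝ) * z * l ≤ κ * z * l := by gcongr
    linarith
  have hK32 : 32 * (d + 1) * (K + 1) ≤ z := by nlinarith
  have hK8 : 8 * d * (K + 1) ≤ z := by nlinarith
  have hKz : K ≤ z := by nlinarith
  rcases (Fintype.piFinset fun i => Icc 1 (Tt i)).eq_empty_or_nonempty with hem | hne
  · rw [hem, filter_empty, card_empty, Nat.cast_zero]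
    exact mul_nonneg hε.le (prod_nonneg fun i _ => Nat.cast_nonneg _)
  obtain ⟨t₁, ht₁⟩ := hne
  have hsc : ∀ i, X ≤ H i ∧ H i ≤ z * X := fun i => (hS.sys t₁ ht₁).scale i
  have hIN : ∀ i, INQ (2 * (a₀ + 11)) (4 * a₀ + 40) z (H i) := fun i =>
    hin z X ω T (by linarith) hz c2 hω hω4 c3 hT hTz c4 hZF (H i) (hsc i).1 (hsc i).2
  choose h1 D hD hDc h2 using hIN
  have hex := hexq d z Y X K H Tt G D (by linarith) c5 c7 hYX hKz hS (fun i => ⟨hD i, hDc i⟩)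
  refine le_trans ?_ hex
  have hzw : z ≤ w := by
    have h3 : (z : ℝ) ≤ w := by
      refine le_trans ?_ hw1
      have : 64 * z * l ≤ Real.log X := by
        have h4 : (64 : ℝ) * z * l ≤ C₀ * z * l := by gcongr
        linarith
      nlinarith
    exact_mod_cast h3
  have hsub : ((Fintype.piFinset fun i => Icc 1 (Tt i)).filter fun t => ¬ HLQ Y H (qt G t) (fun s => singPQ (qt G t) s w) ε) ⊆
      ((Fintype.piFinset fun i => Icc 1 (Tt i)).filter fun t => ¬ (((exq Y (qt G t) D).card : ℝ) ≤ (Y : ℝ) ^ 2 / (PW z : ℝ) ^ (2 * (a₀ + 8)))) := by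
    intro t htt
    rw [mem_filter] at htt ⊢
    refine ⟨htt.1, fun hcon => htt.2 ?_⟩
    have hSt := hS.sys t htt.1
    exact hh z Y X K H (qt G t) D (by linarith) c5 c6 hYX hK32 hSt (fun i => ⟨h1 i, h2 i⟩) hcon _
      (hnear d z w Y X K H (qt G t) (by linarith) c5 c7 hYX hd hK8 hSt hzw hw2)
  exact_mod_cast card_le_card hsub

/-- all three parts with one constant `C` -/
theorem mainF (d : ℕ) (hd : 1 ≤ d) : ∃ C₁ : ℝ, 0 < C₁ ∧
    (∀ A ε : ℝ, 0 < ε → ∀ᶠ X : ℕ in atTop, ∀ Q : ℕ, (Q : ℝ) ≤ A * Real.log (Real.log X) → PF d C₁ X Q ε) ∧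
    (∃ c : ℝ, 0 < c ∧ ∀ ε : ℝ, 0 < ε → ∃ᶠ X : ℕ in atTop, ∀ Q : ℕ, (Q : ℝ) ≤ c * (Real.log X / Real.log (Real.log X)) → PF d C₁ X Q ε) ∧
    (∃ c C : ℝ, 0 < c ∧ 0 < C ∧ ∀ ε : ℝ, 0 < ε → ∀ᶠ X : ℕ in atTop,
      (∀ (r : ℕ) [NeZero r], 1 < r → (r : ℝ) ≤ Real.exp (Real.log X / Real.log (Real.log X)) → ∀ χ : DirichletCharacter ℂ r, χ.IsPrimitive → χ ^ 2 = 1 →
        ∀ β : ℝ, χ.LFunction β = 0 → β ≤ 1 - C * (Real.log (Real.log X) / Real.log X)) →
      ∀ Q : ℕ, (Q : ℝ) ≤ c * (Real.log X / Real.log (Real.log X)) → PF d C₁ X Q ε) := by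
  obtain ⟨C₁, hC₁, h⟩ := sufF d hd
  exact ⟨C₁, hC₁, fun A ε hε => case1 zr' Pool.Agent.Q111.SZ.t_PWB Pool.Agent.Q177.SZ.t_SIEG h A ε hε,
    case2 Pool.Agent.Q111.SZ.t_PWB h good', dich zr' Pool.Agent.Q111.SZ.t_PWB h⟩

end Pool.Agent.Q145.LQ
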