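import Pool.Agent.Q145.SZ.Stm3

/-!
# Project LQ (helper145): long systems of polynomials, Hardy-Littlewood (Bateman-Horn) for almost all constant terms

Polynomials `q_1, ..., q_K` with integer coefficients, degree between `1` and `d`, leading coefficients at most `z` in absolute value, positive values
`5 H_i / 4 < q_i(n) ≤ 2 H_i` for `Y < n ≤ 2Y` (`H_i` between `X` and `z X`), and constants `1 ≤ s_i ≤ H_i`. `cntQ Y q s` is the number of `Y < n ≤ 2Y` with `q_i(n) + s_i` prime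
for all `i`. The project proves the Hardy-Littlewood formula for almost all admissible `s`, for `K` up to `c log X / log log X`, in particular for quadratic polynomials
(`X = Y²`: e.g. `n² + a_i`, `N_i - n²`).

Every `S_...` below is a `Prop` with a complete proof in its docstring; many are adaptations of a proved statement of the projects SZ and LS
(`Pool/Agent/Q145/SZ/Stm*.lean`, `Pool/Agent/Q145/LS/Stm.lean`; the file to adapt is named). A job = a theorem `Pool.Agent.Q145.LQ.t_... : S_...` in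
its own file, which imports this file (and whatever library, SZ or LS file it uses).
-/

set_option autoImplicit false

namespace Pool.Agent.Q145.LQ

open Finset Filter
open Pool.Agent.Q145.SZ

/-! ## Definitions -/

/-- the value `q(n)` as a natural number (`0` if it is negative) -/
def vq (q : Polynomial ℤ) (n : ℕ) : ℕ := (q.eval (n : ℤ)).toNat

/-- the value of `q` at a class modulo `W` -/
noncomputable def ev {W : ℕ} (q : Polynomial ℤ) (x : ZMod W) : ZMod W := Polynomial.aeval x q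

/-- the number of classes `n` modulo `p` (prime) with `p | ∏ (q_i(n) + s_i)` -/
def nuQ {K : ℕ} (q : Fin K → Polynomial ℤ) (s : Fin K → ℕ) (p : ℕ) : ℕ :=
  ((range p).filter fun n : ℕ => ∃ i, (p : ℤ) ∣ (q i).eval (n : ℤ) + s i).card

/-- admissible systems -/
def AdmQ {K : ℕ} (q : Fin K → Polynomial ℤ) (s : Fin K → ℕ) : Prop := ∀ p : ℕ, p.Prime → nuQ q s p < p

/-- the factor of the singular series at `p` -/
noncomputable def locQ {K : ℕ} (q : Fin K → Polynomial ℤ) (s : Fin K → ℕ) (p : ℕ) : ℝ := (1 - (nuQ q s p : ℝ) / p) / (1 - 1 / (p : ℝ)) ^ K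

/-- partial product of the singular series, primes `p ≤ w` -/
noncomputable def singPQ {K : ℕ} (q : Fin K → Polynomial ℤ) (s : Fin K → ℕ) (w : ℕ) : ℝ := ∏ p ∈ (Icc 1 w).filter Nat.Prime, locQ q s p

/-- the singular series -/
noncomputable def singQ {K : ℕ} (q : Fin K → Polynomial ℤ) (s : Fin K → ℕ) : ℝ := limUnder atTop (singPQ q s)

/-- the number of `Y < n ≤ 2Y` with all `q_i(n) + s_i` prime -/
def cntQ {K : ℕ} (Y : ℕ) (q : Fin K → Polynomial ℤ) (s : Fin K → ℕ) : ℕ := ((Ioc Y (2 * Y)).filter fun n => ∀ i, (vq (q i) n + s i).Prime).card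

open Classical in
/-- the admissible constants in the box -/
noncomputable def ATQ {K : ℕ} (H : Fin K → ℕ) (q : Fin K → Polynomial ℤ) : Finset (Fin K → ℕ) := (Fintype.piFinset fun i => Icc 1 (H i)).filter (AdmQ q)

/-- the weighted count -/
noncomputable def wcQ {K : ℕ} (Y : ℕ) (q : Fin K → Polynomial ℤ) (s : Fin K → ℕ) : ℝ := ∑ n ∈ Ioc Y (2 * Y), ∏ i, wt (vq (q i) n + s i)

/-- the systems: degrees `1, ..., d`, leading coefficients at most `z` in absolute value, scales `X ≤ H_i ≤ z X`, values in `(5 H_i / 4, 2 H_i]` -/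
structure Sys (d z Y X : ℕ) {K : ℕ} (H : Fin K → ℕ) (q : Fin K → Polynomial ℤ) : Prop where
  deg : ∀ i, 1 ≤ (q i).natDegree ∧ (q i).natDegree ≤ d
  lead : ∀ i, (q i).leadingCoeff.natAbs ≤ z
  scale : ∀ i, X ≤ H i ∧ H i ≤ z * X
  val : ∀ i, ∀ n ∈ Ioc Y (2 * Y), 5 * (H i : ℤ) < 4 * (q i).eval (n : ℤ) ∧ (q i).eval (n : ℤ) ≤ 2 * H i

/-- pairs with different values of all polynomials -/
def okp {K : ℕ} (q : Fin K → Polynomial ℤ) (n m : ℕ) : Prop := n ≠ m ∧ ∀ i, vq (q i) n ≠ vq (q i) m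

section classes

variable {W : ℕ} [NeZero W]

open Classical in
/-- the classes `x` with all `q_i(x) + b_i` units -/
noncomputable def GQ {K : ℕ} (q : Fin K → Polynomial ℤ) (b : Fin K → ZMod W) : Finset (ZMod W) := univ.filter fun x => ∀ i, IsUnit (ev (q i) x + b i)

open Classical in
/-- the admissible constants modulo `W` -/
noncomputable def AdQ (W : ℕ) [NeZero W] {K : ℕ} (q : Fin K → Polynomial ℤ) : Finset (Fin K → ZMod W) := univ.filter fun b => (GQ q b).Nonempty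

/-- the tuples of constants in given classes -/
def SbQ {K : ℕ} (H : Fin K → ℕ) (b : Fin K → ZMod W) : Finset (Fin K → ℕ) := Fintype.piFinset fun i => cls (H i) (b i)

/-- the expected number of points for constants in the classes `b` -/
noncomputable def MbQ {K : ℕ} (Y : ℕ) (q : Fin K → Polynomial ℤ) (b : Fin K → ZMod W) : ℝ := Y * ((GQ q b).card : ℝ) / W * vv W ^ K

open Classical in
/-- the weight of the first moment -/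
noncomputable def w1q {K : ℕ} (q : Fin K → Polynomial ℤ) (n : ZMod W) (b : Fin K → ZMod W) : ℝ :=
  if n ∈ GQ q b then ((GQ q b).card : ℝ)⁻¹ else 0

open Classical in
/-- the weight of the second moment -/
noncomputable def w2q {K : ℕ} (q : Fin K → Polynomial ℤ) (n m : ZMod W) (b : Fin K → ZMod W) : ℝ :=
  if n ∈ GQ q b ∧ m ∈ GQ q b then (((GQ q b).card : ℝ) ^ 2)⁻¹ else 0

end classes

/-- `∏_{p | W} (1 + C / p)` -/
noncomputable def CC (C : ℝ) (W : ℕ) : ℝ := ∏ p ∈ W.primeFactors, (1 + C / (p : ℝ))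

/-- `∏ p / (p - 1)` over the prime factors `p > z` of `h` -/
noncomputable def JP (z h : ℕ) : ℝ := ∏ p ∈ h.primeFactors.filter (fun p => z < p), (p : ℝ) / ((p : ℝ) - 1)

/-! ## Layer A: the local law -/

/-- **ABS** (an elementary inequality). Proof. If `U` is empty both sides are `0`. Put `t = r/g ∈ [0, 1)`. Claim: `(1 - t)⁻⁴ ≤ 1 + C t` with `C = (2d)^5 + 128`. If `g ≥ 2d` then `t ≤ 1/2` and
`(1 - t)⁻⁴ - 1 ≤ 4 t (1 - t)⁻⁵ ≤ 128 t`. If `g < 2d` and `r ≥ 1`: `(1 - t)⁻⁴ ≤ g⁴ ≤ (2d)^4` (as `g - r ≥ 1`) and `t ≥ 1/g ≥ 1/(2d)`. So the left side is at most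
`|U| g⁻⁴ ∑ (1 + C r/g) ≤ |U|² g⁻⁴ (1 + C κ)`, and `∑ (g - r)⁻² ≥ |U| g⁻²`. -/
def S_ABS : Prop := ∀ d : ℕ, ∃ C : ℝ, 0 < C ∧ ∀ (ι : Type) (U : Finset ι) (r : ι → ℕ) (g : ℕ) (κ : ℝ), 0 ≤ κ → (∀ u ∈ U, r u ≤ d ∧ r u + 1 ≤ g) →
  ∑ u ∈ U, (r u : ℝ) ≤ κ * U.card * g →
  (U.card : ℝ) * ∑ u ∈ U, (((g : ℝ) - r u) ^ 4)⁻¹ ≤ (1 + C * κ) * (∑ u ∈ U, (((g : ℝ) - r u) ^ 2)⁻¹) ^ 2

/-- the local inequality modulo a prime -/
def LOCQ (d : ℕ) (C : ℝ) : Prop := ∀ (p : ℕ) [Fact p.Prime] (k : ℕ) (q : Fin k → Polynomial ℤ) (c : Fin k → ZMod p) (v : Polynomial ℤ) (n m : ZMod p),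
  v.natDegree ≤ d → n ∈ GQ q c → m ∈ GQ q c →
  ((Us (ev v n) (ev v m)).card : ℝ) * ∑ β ∈ Us (ev v n) (ev v m), (((GQ (Fin.cons v q : Fin (k + 1) → Polynomial ℤ) (Fin.cons β c)).card : ℝ) ^ 4)⁻¹ ≤
    (1 + C / (p : ℝ)) * (∑ β ∈ Us (ev v n) (ev v m), (((GQ (Fin.cons v q : Fin (k + 1) → Polynomial ℤ) (Fin.cons β c)).card : ℝ) ^ 2)⁻¹) ^ 2

/-- **LOCQ** (from ABS). Proof. In the field `ZMod p` a unit is a nonzero element. Let `S = GQ q c`, `g = |S|`. `GQ (cons v q) (cons β c) = {x ∈ S : v(x) + β ≠ 0}` has `g - r(β)` elements, `r(β) = |{x ∈ S : v(x) = -β}|`; for `β` in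
`U = Us (v n) (v m)` the element `n` survives, so `r(β) + 1 ≤ g`. If `v` is constant modulo `p` (all coefficients of positive degree divisible by `p`) then `r(β) = 0` for `β ∈ U`. Otherwise `v + β` has at most `d` roots,
`r(β) ≤ d`. `∑_β r(β) ≤ g`. If `U` is nonempty then `|U| ≥ p/3` (it contains all `β` different from `-v(n)`, `-v(m)`: `|U| ≥ p - 2`, and `|U| = p - 1` if `v(n) = v(m)`; for `p = 2` nonempty is enough), so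
`∑ r ≤ g ≤ (3/p) |U| g` and ABS applies with `κ = 3/p`; the constant is `3 C_ABS`. If `U` is empty both sides are `0`. -/
def S_LOCQ : Prop := S_ABS → ∀ d : ℕ, ∃ C : ℝ, 0 < C ∧ LOCQ d C

/-- the local inequality modulo a squarefree number -/
def CRTQ (d : ℕ) (C : ℝ) : Prop := ∀ (W : ℕ) [NeZero W], Squarefree W → ∀ (k : ℕ) (q : Fin k → Polynomial ℤ) (c : Fin k → ZMod W) (v : Polynomial ℤ) (n m : ZMod W),
  v.natDegree ≤ d → n ∈ GQ q c → m ∈ GQ q c →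
  ((Us (ev v n) (ev v m)).card : ℝ) * ∑ β ∈ Us (ev v n) (ev v m), (((GQ (Fin.cons v q : Fin (k + 1) → Polynomial ℤ) (Fin.cons β c)).card : ℝ) ^ 4)⁻¹ ≤
    CC C W * (∑ β ∈ Us (ev v n) (ev v m), (((GQ (Fin.cons v q : Fin (k + 1) → Polynomial ℤ) (Fin.cons β c)).card : ℝ) ^ 2)⁻¹) ^ 2

/-- **CRTQ** (from LOCQ to squarefree moduli; adapt `Pool/Agent/Q211/LS/Crts.lean`; evaluation of polynomials commutes with the ring isomorphism `ZMod.chineseRemainder`, `Polynomial.map_aeval_eq_aeval_map` or `Polynomial.hom_eval₂`,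
units go to pairs of units). -/
def S_CRTQ : Prop := ∀ (d : ℕ) (C : ℝ), 0 < C → LOCQ d C → CRTQ d C

/-- law of one coordinate with the first power -/
def LAW1Q (d : ℕ) (C : ℝ) : Prop := ∀ (W : ℕ) [NeZero W], Squarefree W → ∀ (K : ℕ) (q : Fin K → Polynomial ℤ), (∀ i, (q i).natDegree ≤ d) → ∀ (n : ZMod W) (i : Fin K) (η : ZMod W → ℝ) (δ : ℝ), 0 ≤ δ →
  (∑ β ∈ Us (ev (q i) n) (ev (q i) n), η β ^ 2 ≤ δ ^ 2 * (Us (ev (q i) n) (ev (q i) n)).card) →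
  ∑ b : Fin K → ZMod W, w1q q n b * η (b i) ≤ δ * √(CC C W) * ∑ b : Fin K → ZMod W, w1q q n b

/-- replacement of all coordinates -/
def LAW2Q (d : ℕ) (C : ℝ) : Prop := ∀ (W : ℕ) [NeZero W], Squarefree W → ∀ (K : ℕ) (q : Fin K → Polynomial ℤ), (∀ i, (q i).natDegree ≤ d) → ∀ (n m : ZMod W) (η : Fin K → ZMod W → ℝ) (δ : ℝ), 0 ≤ δ →
  (∀ i, ∀ β ∈ Us (ev (q i) n) (ev (q i) m), -1 ≤ η i β) →
  (∀ i, ∑ β ∈ Us (ev (q i) n) (ev (q i) m), η i β ^ 2 ≤ δ ^ 2 * (Us (ev (q i) n) (ev (q i) m)).card) →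
  ∑ b : Fin K → ZMod W, w2q q n m b * ∏ i, (1 + η i (b i)) ≤ (1 + δ * √(CC C W)) ^ K * ∑ b : Fin K → ZMod W, w2q q n m b

/-- **LAWQ** (adapt `Pool/Agent/Q211/LS/Law.lean`, theorems `t_LAW1S`, `t_LAW2S`; the proofs are in the docstrings of `S_LAW1S`, `S_LAW2S` in `Pool/Agent/Q145/LS/Stm.lean`; the slopes `u i` become the polynomials `q i`). -/
def S_LAWQ : Prop := ∀ (d : ℕ) (C : ℝ), 0 < C → CRTQ d C → LAW1Q d C ∧ LAW2Q d C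

/-! ## Layer B: the moments -/

/-- **MOM1Q** (first moment; adapt `Pool/Agent/Q145/LS/MOM1S.lean`). Proof. `(vq (q i) n : ZMod W) = ev (q i) n` as the value is not negative. `(∑_{s ∈ SbQ} wcQ) / |SbQ| = ∑_n ∏_i A1 (H i) (vq (q i) n) (b i)` (all classes `cls (H i) β` are nonempty, `W ≤ H i`). With
`v = vv W > 0`, `∏ x_i ≥ 1 - ∑ |x_i - 1|` for `x_i ≥ 0`; drop the `n ∉ GQ q b`: the sum over `b ∈ AdQ` of the quotients by `MbQ` is at least `(W/Y) ∑_n ∑_b w1q q n b (1 - ∑_i |A1/v - 1|)`. LAW1Q with `η = |A1/v - 1|`: at least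
`(W/Y) ∑_n (1 - K δ √CC) ∑_b w1q q n b`. Finally `∑_n ∑_b w1q q n b = ∑_{b ∈ AdQ} |{n ∈ (Y, 2Y] : n ∈ GQ q b}| / |GQ q b|` is between `(Y/W - 1) |AdQ|` and `(Y/W + 1) |AdQ|` (each class has between `Y/W - 1` and `Y/W + 1` elements in `(Y, 2Y]`); use the
lower bound for the main term and the upper bound for the error term. -/
def S_MOM1Q : Prop := ∀ (d : ℕ) (C : ℝ), 0 < C → LAW1Q d C → ∀ (W : ℕ) [NeZero W] (Y K : ℕ) (H : Fin K → ℕ) (q : Fin K → Polynomial ℤ) (δ : ℝ), Squarefree W → W ≤ Y → (∀ i, W ≤ H i) → 0 ≤ δ →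
  (∀ i, (q i).natDegree ≤ d) → (∀ i, ∀ n ∈ Ioc Y (2 * Y), 0 ≤ (q i).eval (n : ℤ)) →
  (∀ i, ∀ n ∈ Ioc Y (2 * Y), ∑ β ∈ Us (ev (q i) (n : ZMod W)) (ev (q i) (n : ZMod W)), (A1 (H i) (vq (q i) n) β - vv W) ^ 2 ≤
    (δ * vv W) ^ 2 * (Us (ev (q i) (n : ZMod W)) (ev (q i) (n : ZMod W))).card) →
  (1 - (W : ℝ) / Y - (1 + (W : ℝ) / Y) * (K * (δ * √(CC C W)))) * (AdQ W q).card ≤
    ∑ b ∈ AdQ W q, (∑ s ∈ SbQ H b, wcQ Y q s / MbQ Y q b) / (SbQ H b).card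

open Classical in
/-- **MOM2Q** (second moment; adapt `Pool/Agent/Q213/LS/Mom2.lean`). Proof. `(∑_{s ∈ SbQ} (wcQ Y q s)²) / |SbQ| = ∑_{n, m} ∏_i B2 (H i) (vq (q i) n) (vq (q i) m) (b i)`; everything is `≥ 0`. By (H2') the product vanishes unless all `b i ∈ Us`, i.e. unless
`n, m ∈ GQ q b`. So with `v = vv W`: `∑_{b ∈ AdQ} E_b (wc/Mb)² = (W/Y)² ∑_{n, m} ∑_b w2q q n m b ∏_i (B2 / v²)`. (a) `okp q n m`, `(n, m) ∉ E`: `η i β = B2 / (v² S i n m) - 1 ≥ -1`, (H2) and LAW2Q bound the inner sum by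
`∏_i S i n m · (1 + ε₂ √CC)^K ∑_b w2q q n m b`; the last sum depends only on the classes `c`, `e` of `n`, `m`; (HS) and `∑_{c, e} w2q q c e b = 1` for `b ∈ AdQ` give `≤ (1 + ε₂ √CC)^K (1 + H₀) |AdQ|`. (b) `okp`, `(n, m) ∈ E`: (H3) and `∑_b w2q ≤ |AdQ|` give
`≤ W² C₀^K e₂ |AdQ|`. (c) not `okp`: (H4), `v ≥ 1`, at most `N Y` pairs: `≤ (W/Y)² N Y D₀^K |AdQ|`. -/
def S_MOM2Q : Prop := ∀ (d : ℕ) (C : ℝ), 0 < C → LAW2Q d C → ∀ (W : ℕ) [NeZero W] (Y K : ℕ) (H : Fin K → ℕ) (q : Fin K → Polynomial ℤ) (ε₂ C₀ D₀ H₀ e₂ N : ℝ) (S : Fin K → ℕ → ℕ → ℝ) (E : Finset (ℕ × ℕ)),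
  Squarefree W → W ≤ Y → (∀ i, W ≤ H i) → (∀ i, (q i).natDegree ≤ d) → (∀ i, ∀ n ∈ Ioc Y (2 * Y), 0 ≤ (q i).eval (n : ℤ)) →
  0 ≤ ε₂ → 0 ≤ C₀ → 0 ≤ D₀ → 0 ≤ H₀ → 0 ≤ e₂ → (∀ i n m, 0 < S i n m) →
  (∀ i, ∀ n ∈ Ioc Y (2 * Y), ∀ m ∈ Ioc Y (2 * Y), okp q n m → (n, m) ∉ E →
    ∑ β ∈ Us (ev (q i) (n : ZMod W)) (ev (q i) (m : ZMod W)), (B2 (H i) (vq (q i) n) (vq (q i) m) β - vv W ^ 2 * S i n m) ^ 2 ≤
      (ε₂ * vv W ^ 2 * S i n m) ^ 2 * (Us (ev (q i) (n : ZMod W)) (ev (q i) (m : ZMod W))).card) →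
  (∀ i, ∀ n ∈ Ioc Y (2 * Y), ∀ m ∈ Ioc Y (2 * Y), ∀ β : ZMod W, β ∉ Us (ev (q i) (n : ZMod W)) (ev (q i) (m : ZMod W)) → B2 (H i) (vq (q i) n) (vq (q i) m) β = 0) →
  (∀ i, ∀ n ∈ Ioc Y (2 * Y), ∀ m ∈ Ioc Y (2 * Y), okp q n m → ∀ β : ZMod W, B2 (H i) (vq (q i) n) (vq (q i) m) β ≤ C₀ * vv W ^ 2 * S i n m) →
  (∀ i, ∀ n ∈ Ioc Y (2 * Y), ∀ m ∈ Ioc Y (2 * Y), ∀ β : ZMod W, B2 (H i) (vq (q i) n) (vq (q i) m) β ≤ D₀) →
  (∀ c e : ZMod W, ∑ n ∈ (Ioc Y (2 * Y)).filter (fun n : ℕ => (n : ZMod W) = c),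
    ∑ m ∈ (Ioc Y (2 * Y)).filter (fun m : ℕ => (m : ZMod W) = e ∧ okp q n m), ∏ i, S i n m ≤ ((Y : ℝ) / W) ^ 2 * (1 + H₀)) →
  (∑ x ∈ E.filter (fun x => x.1 ∈ Ioc Y (2 * Y) ∧ x.2 ∈ Ioc Y (2 * Y) ∧ okp q x.1 x.2), ∏ i, S i x.1 x.2 ≤ e₂ * (Y : ℝ) ^ 2) →
  (((((Ioc Y (2 * Y)) ×ˢ (Ioc Y (2 * Y))).filter fun x : ℕ × ℕ => ¬ okp q x.1 x.2).card : ℝ) ≤ N * Y) →
  ∑ b ∈ AdQ W q, (∑ s ∈ SbQ H b, (wcQ Y q s / MbQ Y q b) ^ 2) / (SbQ H b).card ≤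
    ((1 + ε₂ * √(CC C W)) ^ K * (1 + H₀) + (W : ℝ) ^ 2 * C₀ ^ K * e₂ + (W : ℝ) ^ 2 * D₀ ^ K * N / Y) * (AdQ W q).card

open Classical in
/-- **NOK**: few pairs with equal values. Proof. `n = m`: `Y` pairs. For `i` and `n` fixed, `vq (q i) m = vq (q i) n` means `q_i(m) = q_i(n)` (values not negative), and `q_i - q_i(n)` is not constant and has at most `d` roots. -/
def S_NOK : Prop := ∀ (d Y K : ℕ) (q : Fin K → Polynomial ℤ), (∀ i, 1 ≤ (q i).natDegree ∧ (q i).natDegree ≤ d) → (∀ i, ∀ n ∈ Ioc Y (2 * Y), 0 ≤ (q i).eval (n : ℤ)) →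
  ((((Ioc Y (2 * Y)) ×ˢ (Ioc Y (2 * Y))).filter fun x : ℕ × ℕ => ¬ okp q x.1 x.2).card : ℝ) ≤ (1 + K * d) * Y

/-! ## Layer C: the pair singular series on average -/

/-- `∑_{p > z} 1 / p² ≤ C / (z log z)` (proved: `Pool.Agent.Q145.LS.t_SQ2` has this and more) -/
def S_SQ2 : Prop := ∃ C : ℝ, 0 < C ∧ ∀ z w : ℕ, 2 ≤ z → ∑ p ∈ (Ioc z w).filter Nat.Prime, 1 / (p : ℝ) ^ 2 ≤ C / ((z : ℝ) * Real.log z)

open Classical in
/-- **JPOLY** (moments of `JP` along a polynomial in a residue class; compare `Pool/Agent/Q261/SZ/HS.lean`, `HSa.lean`). Proof. Put `W = PW z`. For `p > z ≥ 8M`: `(p/(p-1))^M = 1 + g(p)`, `g(p) ≤ e^{M/(p-1)} - 1 ≤ 2M/(p-1) ≤ 4M/p`. For `h = |R(m)|`, `1 ≤ h ≤ Z` (the condition in the filter):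
`JP z h ^ M = ∏_{p | h, p > z} (1 + g(p)) = ∑_{e | h} g(e)`, `e` over the squarefree numbers with all prime factors `> z`, `e ≤ Z`. The leading coefficient of `R` is not divisible by such `p` (`0 < |lc| ≤ z < p`), so `R` has at most `d` roots modulo `p` and at most
`d^{ω(e)}` roots modulo `e`; with `m ≡ c` mod `W` (`(e, W) = 1`) they give at most `d^{ω(e)}` classes modulo `W e`, each with at most `Y/(We) + 1` elements in `(Y, 2Y]`. So the sum is at most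
`(Y/W) ∏_{z < p ≤ Z} (1 + 4Md/p²) + ∏_{z < p ≤ Z} (1 + 4Md/p)`. The first product is `≤ exp(4Md C'/(z log z)) ≤ 1 + C/(2 log z)` (SQ2, `8M ≤ z`). The second is `≤ exp(4Md (log log Z + C'')) ≤ (log Z)^{C (M+1)}` (Mertens upper bound `∑_{p ≤ Z} 1/p ≤ log log Z + C''`, or any bound
`≤ C'' log log Z`), which is `≤ Y/W² ≤ (Y/W) / (2 log z)` as `W ≥ e^{z/2}` (`Pool.Agent.Q111.SZ.t_PWB`). -/
def S_JPOLY : Prop := S_SQ2 → ∀ d : ℕ, ∃ (C z₀ : ℕ), 1 ≤ C ∧ ∀ (z Y Z M : ℕ) (R : Polynomial ℤ), z₀ ≤ z → 8 * M ≤ z → Y ≤ Z → (PW z : ℝ) ^ 2 * Real.log Z ^ (C * (M + 1)) ≤ Y →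
  R ≠ 0 → R.natDegree ≤ d → R.leadingCoeff.natAbs ≤ z → ∀ c : ZMod (PW z),
  ∑ m ∈ (Ioc Y (2 * Y)).filter (fun m : ℕ => (m : ZMod (PW z)) = c ∧ R.eval (m : ℤ) ≠ 0 ∧ (R.eval (m : ℤ)).natAbs ≤ Z), JP z (R.eval (m : ℤ)).natAbs ^ M ≤ ((Y : ℝ) / PW z) * (1 + C / Real.log z)

/-- conclusion of `S_JPOLY` -/
def S_JPOLY' : Prop := ∀ d : ℕ, ∃ (C z₀ : ℕ), 1 ≤ C ∧ ∀ (z Y Z M : ℕ) (R : Polynomial ℤ), z₀ ≤ z → 8 * M ≤ z → Y ≤ Z → (PW z : ℝ) ^ 2 * Real.log Z ^ (C * (M + 1)) ≤ Y →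
  R ≠ 0 → R.natDegree ≤ d → R.leadingCoeff.natAbs ≤ z → ∀ c : ZMod (PW z),
  ∑ m ∈ (Ioc Y (2 * Y)).filter (fun m : ℕ => (m : ZMod (PW z)) = c ∧ R.eval (m : ℤ) ≠ 0 ∧ (R.eval (m : ℤ)).natAbs ≤ Z), JP z (R.eval (m : ℤ)).natAbs ^ M ≤ ((Y : ℝ) / PW z) * (1 + C / Real.log z)

open Classical in
/-- **HSQ** (from JPOLY'). Proof. `r = 0` or `K = 0`: the sum is the number of pairs, `≤ (Y/W + 1)²`. For `h ≥ 1`: `SP z H h ≤ JP z h` (factors with `p ∤ h` are `≤ 1`). For fixed `n` let `R_i` be the divided difference of `q_i` at `n`: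
`q_i(m) - q_i(n) = (m - n) R_i(m)` (`R_i = (q_i - q_i(n)) /ₘ (X - C n)`, degree `deg q_i - 1`, the same leading coefficient). `JP` is submultiplicative, so with `D = dst n m`, `∏_i SP^r ≤ ∏_i (JP(D) JP(|R_i(m)|))^r = JP(D)^{rK} ∏_i JP(|R_i(m)|)^r ≤ (1/2) JP(D)^{2rK} + (1/(2K)) ∑_i JP(|R_i(m)|)^{2rK}`
(AM-GM twice: `x y ≤ (x² + y²)/2` and `(∏ y_i)² = (∏ y_i^{2K})^{1/K} ≤ (1/K) ∑ y_i^{2K}`). JPOLY' with `M = 2rK ≤ 4K`, `8M ≤ z`, `Z = z X`, for `R = X - C n` and for the `R_i` (`|R_i(m)| ≤ |q_i(m) - q_i(n)| ≤ H_i ≤ z X` for `m ≠ n`, so the condition `natAbs ≤ Z` of JPOLY' holds), sum over the at most `Y/W + 1` values of `n`; `W/Y ≤ 1/log z`. -/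
def S_HSQ : Prop := S_JPOLY' → ∀ d : ℕ, ∃ (C z₀ : ℕ), 1 ≤ C ∧ ∀ (z Y X K r : ℕ) (H : Fin K → ℕ) (q : Fin K → Polynomial ℤ), z₀ ≤ z → r ≤ 2 → 32 * K ≤ z → Sys d z Y X H q → Y ≤ X →
  (PW z : ℝ) ^ 2 * Real.log ((z : ℝ) * X) ^ (C * (K + 1)) ≤ Y → ∀ c e : ZMod (PW z),
  ∑ n ∈ (Ioc Y (2 * Y)).filter (fun n : ℕ => (n : ZMod (PW z)) = c),
    ∑ m ∈ (Ioc Y (2 * Y)).filter (fun m : ℕ => (m : ZMod (PW z)) = e ∧ okp q n m), ∏ i, SP z (H i) (dst (vq (q i) n) (vq (q i) m)) ^ r ≤ ((Y : ℝ) / PW z) ^ 2 * (1 + C / Real.log z)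

open Classical in
/-- **ESQ** (sums over few pairs; adapt `esum` in `Pool/Agent/Q145/SZ/SufB.lean`). Proof. Cauchy-Schwarz: `∑_E F ≤ |E|^{1/2} (∑_{pairs} F²)^{1/2}`, the last sum is split into the `W²` pairs of classes: `≤ η Y (2 Y²)^{1/2} ≤ 2 η Y²`. -/
def S_ESQ : Prop := ∀ (W : ℕ) [NeZero W] (Y K : ℕ) (q : Fin K → Polynomial ℤ) (F : ℕ → ℕ → ℝ) (E : Finset (ℕ × ℕ)) (η : ℝ), 0 ≤ η → (∀ n m, 0 ≤ F n m) →
  (∀ c e : ZMod W, ∑ n ∈ (Ioc Y (2 * Y)).filter (fun n : ℕ => (n : ZMod W) = c),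
    ∑ m ∈ (Ioc Y (2 * Y)).filter (fun m : ℕ => (m : ZMod W) = e ∧ okp q n m), F n m ^ 2 ≤ ((Y : ℝ) / W) ^ 2 * 2) →
  ((E.card : ℝ) ≤ η ^ 2 * (Y : ℝ) ^ 2) →
  ∑ x ∈ E.filter (fun x => x.1 ∈ Ioc Y (2 * Y) ∧ x.2 ∈ Ioc Y (2 * Y) ∧ okp q x.1 x.2), F x.1 x.2 ≤ 2 * η * (Y : ℝ) ^ 2

/-! ## Layer D: exceptional differences -/

/-- pair correlations of the primes at scale `X` for almost all pairs (conclusion of `S_H2`, `H2c` in `SZ/SufB.lean`) -/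
def H2p (A z X : ℕ) : Prop := ∃ E : Finset (ℕ × ℕ), (E.card : ℝ) ≤ (X : ℝ) ^ 2 / (PW z : ℝ) ^ A ∧
    ∀ n ∈ Ioc X (2 * X), ∀ m ∈ Ioc X (2 * X), n ≠ m → (n, m) ∉ E →
      ∑ β ∈ Us (n : ZMod (PW z)) (m : ZMod (PW z)), (B2 X n m β - vv (PW z) ^ 2 * SP z X (dst n m)) ^ 2 ≤
        (1 / Real.log X ^ A * vv (PW z) ^ 2 * SP z X (dst n m)) ^ 2 * (Us (n : ZMod (PW z)) (m : ZMod (PW z))).card

/-- the same with exceptional differences instead of exceptional pairs -/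
def H2d (A z X : ℕ) : Prop := ∃ D : Finset ℕ, D ⊆ Icc 1 X ∧ (D.card : ℝ) ≤ (X : ℝ) / (PW z : ℝ) ^ A ∧
    ∀ n ∈ Ioc X (2 * X), ∀ m ∈ Ioc X (2 * X), 5 * X < 4 * n → 5 * X < 4 * m → n ≠ m → dst n m ∉ D →
      ∑ β ∈ Us (n : ZMod (PW z)) (m : ZMod (PW z)), (B2 X n m β - vv (PW z) ^ 2 * SP z X (dst n m)) ^ 2 ≤
        (1 / Real.log X ^ A * vv (PW z) ^ 2 * SP z X (dst n m)) ^ 2 * (Us (n : ZMod (PW z)) (m : ZMod (PW z))).card

/-- **H2U** (from exceptional pairs to exceptional differences). Proof. `L = log X`, `W = PW z`, `B = A + 4`, `A' = A + B + 1`, `Δ = ⌊X / (8 L^B)⌋ ≥ 1`. For `0 ≤ t < Δ` let `D_t` be the set of the `h ∈ [1, X]` for which there is `k ≡ t` mod `Δ`, `X < k`, `k + h ≤ 2X`, with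
`(k, k + h) ∈ E`. `∑_t |D_t| ≤ |E|`, so some `t` has `|D_t| ≤ X²/(Δ W^{A'}) ≤ 16 L^B X/W^{A'} ≤ X/W^A` (`W ≥ e^{z/2} ≥ L^{32}` for large `z`: `Pool.Agent.Q111.SZ.t_PWB`). Let `n < m` (the other case by symmetry of `B2`, `Us`, `dst`) be in `(5X/4, 2X]`, `h = m - n ∉ D_t`. Choose
`k ≡ t` mod `Δ` with `n - Δ < k ≤ n`; `k > X`, and put `m' = k + h ≤ m ≤ 2X`, `δ = n - k ∈ [0, Δ)`. The bound holds for `(k, m')`. With `s' = s + δ`: `|cls X β| B2 X n m β = ∑_{δ < s' ≤ X + δ, s' ≡ β + δ} wt(k + s') wt(m' + s')`, which differs from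
`|cls X (β+δ)| B2 X k m' (β + δ)` by the terms with `s' ≤ δ` or `s' > X`: at most `2 (Δ/W + 1)` terms, each `≤ (2L)²`-ish (`wt ≤ log (4X) ≤ 2 L`). As the class sizes are `X/W + O(1)`, at least `X/(2W)`, and `B2 ≤ 4 L²`: `|B2 X n m β - B2 X k m' (β + δ)| ≤ 100 L^{2-B}`.
`β ↦ β + δ` maps `Us n m` to `Us k m'`, `dst n m = dst k m'`. So the sum is at most `2 (L^{-A'} v² SP)² |Us| + 2 · 10⁴ L^{4-2B} |Us| ≤ (L^{-A} v² SP)² |Us|`, because `v ≥ 1`, `SP ≥ 1/2` (`Pool.Agent.Q145.SZ.S_US`, third part: `t_US`). -/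
def S_H2U : Prop := ∀ A : ℕ, ∃ (A' X₀ : ℕ), A ≤ A' ∧ ∀ z X : ℕ, X₀ ≤ X → 64 * Real.log (Real.log X) ≤ z → 64 * (z : ℝ) ≤ Real.log X → H2p A' z X → H2d A z X

/-- **TAU**: divisor sums over small sets. Proof. Cauchy-Schwarz and `∑_{h ≤ Z} τ(h)² ≤ C Z (log Z)³` (library: search `divisors.card ^ 2` or `sigma`; e.g. `Pool/Agent/W66/PH.lean`, `Helper112`). -/
def S_TAU : Prop := ∃ C : ℝ, 0 < C ∧ ∀ (Z : ℕ) (D : Finset ℕ), 3 ≤ Z → D ⊆ Icc 1 Z → ∑ h ∈ D, (h.divisors.card : ℝ) ≤ C * √((D.card : ℝ) * Z) * Real.log Z ^ 2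

/-- **PRQ**: pairs of values of a quadratic polynomial with given differences. Proof. `h = dst (vq q n) (vq q m) = |q(n) - q(m)| ∈ D`, `h ≠ 0`, so `n ≠ m` and `n - m` divides `h`. Given `h`, `|n - m|`, the sign of `n - m` and the sign of `q(n) - q(m)` one knows
`(q(n) - q(m)) / (n - m) = a (n + m) + b`, hence `n + m` and `n - m`, hence `(n, m)`. So there are at most `4 τ(h)` pairs for each `h`. -/
def S_PRQ : Prop := ∀ (Y : ℕ) (q : Polynomial ℤ) (D : Finset ℕ), q.natDegree = 2 → (∀ n ∈ Ioc Y (2 * Y), 0 ≤ q.eval (n : ℤ)) → 0 ∉ D →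
  (((((Ioc Y (2 * Y)) ×ˢ (Ioc Y (2 * Y))).filter fun x : ℕ × ℕ => dst (vq q x.1) (vq q x.2) ∈ D).card : ℕ) : ℝ) ≤ 4 * ∑ h ∈ D, (h.divisors.card : ℝ)

/-- **PRT**: the same on average over the coefficient of `n`, for any polynomial. Proof. `h = |q_t(n) - q_t(m)| ∈ D`, `q_t = G + t X`; `n - m` divides `h ≠ 0`, and `(q_t(n) - q_t(m)) / (n - m) = Γ(n, m) + t`, `Γ(n, m) = (G(n) - G(m))/(n - m)`. Given `h`, `|n - m|`, the two signs and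
`n` one knows `m` and `t`. So the number of triples `(t, n, m)` is at most `4 Y ∑_{h ∈ D} τ(h)`. -/
def S_PRT : Prop := ∀ (Y T : ℕ) (G : Polynomial ℤ) (D : Finset ℕ), (∀ t ∈ Icc 1 T, ∀ n ∈ Ioc Y (2 * Y), 0 ≤ (G + Polynomial.C (t : ℤ) * Polynomial.X).eval (n : ℤ)) → 0 ∉ D →
  ∑ t ∈ Icc 1 T, (((((Ioc Y (2 * Y)) ×ˢ (Ioc Y (2 * Y))).filter fun x : ℕ × ℕ =>
    dst (vq (G + Polynomial.C (t : ℤ) * Polynomial.X) x.1) (vq (G + Polynomial.C (t : ℤ) * Polynomial.X) x.2) ∈ D).card : ℕ) : ℝ) ≤ 4 * Y * ∑ h ∈ D, (h.divisors.card : ℝ)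

end Pool.Agent.Q145.LQ
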