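import Pool.Agent.Q145.LQ.Stm

/-!
# Project LQ (helper145). Part 2: singular series, transfer
-/

set_option autoImplicit false

namespace Pool.Agent.Q145.LQ

open Finset Filter
open Pool.Agent.Q145.SZ

/-! ## Layer E: the singular series -/

open Classical in
/-- **MBQ** (the mean value and the singular series; adapt `Pool/Agent/Q145/LS/MBSS.lean`). Proof. `|GQ q b| = ∏_{p ≤ z} |{x mod p : q_i(x) + s_i ≠ 0 for all i}| = ∏ (p - nuQ q s p)` (CRT), `vv W = ∏ (1 - 1/p)⁻¹`, so `MbQ = Y singPQ q s z`.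
`GQ` is nonempty iff `nuQ q s p < p` for all primes `p ≤ z`; for `p > z ≥ d K + 1` the leading coefficients are not divisible by `p` (`0 < |lc| ≤ z`), each `q_i + s_i` has at most `d` roots modulo `p`, so `nuQ q s p ≤ d K < p`. -/
def S_MBQ : Prop := ∀ (d z Y K : ℕ) (q : Fin K → Polynomial ℤ) (s : Fin K → ℕ),
  MbQ Y q (fun i => (s i : ZMod (PW z))) = Y * singPQ q s z ∧
  (d * K + 1 ≤ z → (∀ i, 1 ≤ (q i).natDegree ∧ (q i).natDegree ≤ d ∧ (q i).leadingCoeff.natAbs ≤ z) → (AdmQ q s ↔ (GQ q (fun i => (s i : ZMod (PW z)))).Nonempty))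

/-- **LMQ** (local mean and variance). Proof. `1 - nuQ/p` is the probability that for a random class `x` all `q_i(x) + s_i ≠ 0`; for `s` uniform in `(ℤ/p)^K` its mean is `(1 - 1/p)^K`, so `locQ` has mean `1`. The mean of its square is
`p⁻² ∑_{x, y} ∏_i P(s_i ≠ -q_i(x), s_i ≠ -q_i(y))`, the factor is `1 - 1/p` if `q_i(x) = q_i(y)` modulo `p` and `1 - 2/p` otherwise. Divide by `(1 - 1/p)^{2K}`: `(1 - 2/p)/(1 - 1/p)² ≤ 1`, `(1 - 1/p)/(1 - 1/p)² = 1 + 1/(p-1)`, so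
`E locQ² ≤ p⁻² ∑_{x,y} (1 + 1/(p-1))^κ`, `κ = κ(x, y) ≤ K` the number of `i` with `q_i(x) = q_i(y)`. As `κ/(p-1) ≤ 1/4`, `(1 + 1/(p-1))^κ ≤ 1 + 2κ/p`·(small constant): `e^{κ/(p-1)} ≤ 1 + 4κ/p`. `∑_{x,y} κ ≤ K p d` (`q_i` is not constant modulo `p`: for each `x` at most `d` values `y`).
So `E locQ² ≤ 1 + 4 d K/p²`. In counting form: -/
def S_LMQ : Prop := ∀ (d p K : ℕ) (q : Fin K → Polynomial ℤ), p.Prime → 8 * d * (K + 1) ≤ p → (∀ i, 1 ≤ (q i).natDegree ∧ (q i).natDegree ≤ d ∧ ¬ (p : ℤ) ∣ (q i).leadingCoeff) →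
  ∑ s ∈ Fintype.piFinset (fun _ : Fin K => range p), (locQ q s p - 1) = 0 ∧
  ∑ s ∈ Fintype.piFinset (fun _ : Fin K => range p), (locQ q s p - 1) ^ 2 ≤ 4 * d * K / (p : ℝ) ^ 2 * (p : ℝ) ^ K

/-- **VARQ** (from LMQ, SQ2; adapt `Pool/Agent/Q213/LS/VarS.lean`, `Pool/Agent/Q261/SZ/VAR.lean`). Proof. `s ∈ SbQ H b`: independent coordinates, `s_i` uniform in a class mod `W = PW z` of `[1, H_i]`, `H_i ≥ X`. The law of `(s mod r)` on `(ℤ/r)^K`, `(r, W) = 1`, `r ≤ w²`, has density between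
`(1 - 4rW/X)^K` and `(1 + 4rW/X)^K` with respect to the uniform law. The functions `locQ q s p - 1`, `z < p ≤ w`, depend on `s` mod `p` (`p > z` does not divide the leading coefficients), have mean `0` and mean square `≤ 4dK/p²` for the uniform law (LMQ), are `≤ 1` in absolute value
(`8 d (K + 1) ≤ z < p`, `nuQ ≤ dK`), and for `p ≠ p'` they are independent for the uniform law mod `p p'`. `∑_{p > z} 4dK/p² ≤ C d K/(z log z) ≤ C/log z`. -/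
def S_VARQ : Prop := S_LMQ → S_SQ2 → ∃ C : ℝ, 0 < C ∧ ∀ (d z w Y X K : ℕ) (H : Fin K → ℕ) (q : Fin K → Polynomial ℤ), 2 ≤ z → 8 * d * (K + 1) ≤ z → Sys d z Y X H q → 16 * (K + 1) * (w : ℝ) ^ 4 * PW z ≤ X →
  ∀ b : Fin K → ZMod (PW z),
  ∑ s ∈ SbQ H b, (∑ p ∈ (Ioc z w).filter Nat.Prime, (locQ q s p - 1)) ^ 2 ≤ (C / Real.log z + 16 * (K + 1) * (w : ℝ) ^ 4 * PW z / X) * (SbQ H b).card ∧
  ∑ s ∈ SbQ H b, ∑ p ∈ (Ioc z w).filter Nat.Prime, (locQ q s p - 1) ^ 2 ≤ (C / Real.log z + 16 * (K + 1) * (w : ℝ) ^ 4 * PW z / X) * (SbQ H b).card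

/-- conclusion of `S_VARQ` -/
def S_VARQ' : Prop := ∃ C : ℝ, 0 < C ∧ ∀ (d z w Y X K : ℕ) (H : Fin K → ℕ) (q : Fin K → Polynomial ℤ), 2 ≤ z → 8 * d * (K + 1) ≤ z → Sys d z Y X H q → 16 * (K + 1) * (w : ℝ) ^ 4 * PW z ≤ X →
  ∀ b : Fin K → ZMod (PW z),
  ∑ s ∈ SbQ H b, (∑ p ∈ (Ioc z w).filter Nat.Prime, (locQ q s p - 1)) ^ 2 ≤ (C / Real.log z + 16 * (K + 1) * (w : ℝ) ^ 4 * PW z / X) * (SbQ H b).card ∧
  ∑ s ∈ SbQ H b, ∑ p ∈ (Ioc z w).filter Nat.Prime, (locQ q s p - 1) ^ 2 ≤ (C / Real.log z + 16 * (K + 1) * (w : ℝ) ^ 4 * PW z / X) * (SbQ H b).card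

open Classical in
/-- **TAILQ** (from VARQ'; adapt the first half of `Pool/Agent/Q261/LS/TAILS.lean`). Proof. If `singPQ q s z = 0` then `singPQ q s w = 0`. Otherwise, `y_p = locQ q s p - 1` for `z < p ≤ w` satisfies `|y_p| ≤ 1/2` (`nuQ ≤ dK`, `8 d (K+1) ≤ z < p`: `locQ ≤ (1 - 1/p)^{-K} ≤ 3/2`,
`locQ ≥ 1 - dK/p ≥ 7/8`), so `|log (1 + y_p) - y_p| ≤ y_p²` and `|log (singPQ w / singPQ z)| ≤ |∑ y_p| + ∑ y_p²`. By VARQ', Markov and Chebyshev this is `≤ ε/4` outside a proportion `(C/log z + small)(64/ε² + 8/ε)`; the small term: `16 (K+1) w⁴ PW z/X ≤ 16 log X · X^{1/5 + 1/20 - 1} ≤ 1/log z`. -/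
def S_TAILQ : Prop := S_VARQ' → ∀ ε : ℝ, 0 < ε → ∃ (C : ℝ) (X₀ z₀ : ℕ), 0 < C ∧ ∀ (d z w Y X K : ℕ) (H : Fin K → ℕ) (q : Fin K → Polynomial ℤ), X₀ ≤ X → z₀ ≤ z → 1 ≤ d → 8 * d * (K + 1) ≤ z → Sys d z Y X H q →
  (z : ℝ) ≤ Real.log X → (PW z : ℝ) ^ 20 ≤ X → z ≤ w → (w : ℝ) ^ 20 ≤ X → ∀ b : Fin K → ZMod (PW z),
  (((SbQ H b).filter fun s => ¬ (|singPQ q s w - singPQ q s z| ≤ ε * singPQ q s z)).card : ℝ) ≤ C / Real.log z * (SbQ H b).card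

/-- the cut-off `≈ X^{1/40}` (a power of `2`) -/
def w0 (X : ℕ) : ℕ := 2 ^ (Nat.log 2 X / 40)

/-- **CHT** (character sums over the large primes for almost all discriminants of a progression; adapt `hp_most` and `mid_countK` in the starting file `Pool/Agent/TH892/SW/S4.lean`, with `TH892/CF1.lean` and the tail lemma used there).
Proof. Let `Δ(s) = u + v s`. The squares: at most `2 X^{11/20} + 2` values. Otherwise write `Δ(s) = δ₁ t² δ` with `δ₁ ∈ {±1, ±2}`, `δ` odd squarefree (`kernel`); `t ≤ X^{11/20}`. For the dyadic blocks of primes `(2^i, 2^{i+1}]`, `i₀ ≤ i ≤ I`, `i₀ = log₂ X/40`, `I = ⌈X^κ⌉`, `κ` small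
in terms of `V`, the number of squarefree `δ ≤ X^{11/10}` with a block sum `> 1/i^W` is at most `I (8 (2 m I^{2W})^m)`, `m` constant (`badW_card`, large sieve for a high power of the block sum); so at most `4 (2 X^{11/20} + 3) X^{1/10}` values `s` are bad.
For the others the sum over `(2^{i₀}, 2^{I+1}]` is `≤ 4/(i₀ - 1)^{W-1} + ...` (`mid_sumW`), and beyond `2^{I+1} ≥ exp(c X^κ)` Siegel-Walfisz gives convergence and a small tail (`tail`). -/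
def S_CHT : Prop := ∀ V : ℕ, ∃ X₀ : ℕ, ∀ (X H : ℕ) (u v : ℤ), X₀ ≤ X → X ≤ H → v ≠ 0 → (∀ s ∈ Icc 1 H, ((|u + v * (s : ℤ)| : ℤ) : ℝ) ≤ (X : ℝ) ^ (11 / 10 : ℝ)) →
  ∃ B : Finset ℕ, B ⊆ Icc 1 H ∧ (B.card : ℝ) ≤ (X : ℝ) ^ (9 / 10 : ℝ) ∧ ∀ s ∈ Icc 1 H, s ∉ B → ¬ IsSquare (u + v * (s : ℤ)) ∧
    ∃ l : ℝ, Tendsto (fun N : ℕ => ∑ p ∈ (Ioc (w0 X) N).filter Nat.Prime, (jacobiSym (u + v * (s : ℤ)) p : ℝ) / p) atTop (nhds l) ∧ |l| ≤ 1 / Real.log X ^ V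

open Classical in
/-- **FARQ** (the primes `p > w0 X`, quadratic polynomials, `X = Y²`; from CHT). Proof. Write `q_i = a_i x² + b_i x + c_i`, `1 ≤ |a_i| ≤ z`. From `|q_i(2Y) - q_i(Y + 1)| ≤ H_i ≤ z Y²`: `|b_i| ≤ 10 z Y`, then `|c_i| ≤ 100 z Y²`, so the discriminants `Δ_i(s_i) = b_i² - 4 a_i (c_i + s_i)` are at most `1000 z² X ≤ X^{11/10}`
in absolute value. CHT with `V = 3` for each `i`: the `s_i` outside a set `B_i`, `|B_i| ≤ X^{9/10}`. Bad tuples in `SbQ H b`: some `s_i ∈ B_i` (proportion `≤ K X^{9/10}/(X/(2W))`, tiny as `W^{40} ≤ X`), or `q_i + s_i`, `q_j + s_j` proportional for some `i < j` (for given `s_i` at most one `s_j`).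
For the other `s`: `q_i + s_i` is irreducible over `ℚ` (discriminant not a square), the resultants `Res(q_i + s_i, q_j + s_j)` are not `0` and at most `X^{10}` in absolute value. For `p > w0 X` (`p` odd, `p ∤ a_i`) `q_i + s_i` has `1 + jacobiSym Δ_i p` roots modulo `p`, two of them have a common root only if `p`
divides the resultant: `0 ≤ ∑_i (1 + J_i(p)) - nuQ q s p ≤ 2 ∑_{i<j} [p | Res_{ij}]`. With `8 (K+1) ≤ z < p`: `|log locQ q s p + ∑_i J_i(p)/p| ≤ 16 (K+1)²/p² + 4 ∑_{i<j} [p | Res_{ij}]/p`. Each resultant has at most `1000` prime factors `> w0 X ≥ X^{1/41}`. So the product converges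
and `|log (singQ / singPQ (w0 X))| ≤ K/log³X + 16 (K+1)²/w0 X + 4000 K²/w0 X ≤ ε/2` (`K ≤ log X`; if `s` is admissible all `locQ q s p > 0`). -/
def S_FARQ : Prop := S_CHT → ∀ ε : ℝ, 0 < ε → ∃ X₀ : ℕ, ∀ (z Y K : ℕ) (H : Fin K → ℕ) (q : Fin K → Polynomial ℤ), X₀ ≤ Y → 16 * (K + 1) ≤ z → Sys 2 z Y (Y ^ 2) H q → (∀ i, (q i).natDegree = 2) →
  (z : ℝ) ≤ Real.log Y → (PW z : ℝ) ^ 40 ≤ (Y : ℝ) ^ 2 → ∀ b : Fin K → ZMod (PW z),
  (((SbQ H b).filter fun s => ¬ (AdmQ q s → 0 < singQ q s ∧ Tendsto (singPQ q s) atTop (nhds (singQ q s)) ∧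
    |singQ q s - singPQ q s (w0 (Y ^ 2))| ≤ ε * singPQ q s (w0 (Y ^ 2)))).card : ℝ) ≤ ε * (SbQ H b).card

/-- **CONVQ** (the singular series of a fixed system converges). Proof. Fixed polynomials `f_i = q_i + s_i` of degree `2`, discriminants `Δ_i` not squares, pairwise not proportional. For large `p`: `nuQ q s p = ∑_i (1 + jacobiSym Δ_i p)` (no common roots: the resultants are not `0`), so
`locQ q s p = 1 - ∑_i J_i(p)/p + O(1/p²)`, and `∑_p J_i(p)/p` converges (`Δ_i` not a square; library: the tail lemma of `TH892/CF1.lean`, `Siegel-Walfisz`, or `L(1, χ) ≠ 0`). All factors are positive for admissible `s`. -/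
def S_CONVQ : Prop := ∀ (K : ℕ) (q : Fin K → Polynomial ℤ) (s : Fin K → ℕ), (∀ i, (q i).natDegree = 2) →
  (∀ i, ¬ IsSquare ((q i).coeff 1 ^ 2 - 4 * (q i).coeff 2 * ((q i).coeff 0 + s i))) →
  (∀ i j, i ≠ j → ¬ ∃ a b : ℤ, a ≠ 0 ∧ b ≠ 0 ∧ Polynomial.C a * (q i + Polynomial.C (s i : ℤ)) = Polynomial.C b * (q j + Polynomial.C (s j : ℤ))) → AdmQ q s →
  Tendsto (singPQ q s) atTop (nhds (singQ q s)) ∧ 0 < singQ q s

/-! ## Layer F: transfer -/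

open Classical in
/-- **TRANSQ** (from the classes to all admissible constants; adapt `Pool/Agent/Q211/LS/Transs.lean`). `ATQ H q` is the disjoint union of the `SbQ H b`, `b ∈ AdQ (PW z) q` (MBQ), and `∏ (H_i/W - 1) ≤ |SbQ H b| ≤ ∏ (H_i/W + 1)` with quotient `≤ 2` as `8 (K + 1) W ≤ X ≤ H_i`. -/
def S_TRANSQ : Prop := S_MBQ → ∀ (d z Y X K : ℕ) (H : Fin K → ℕ) (q : Fin K → Polynomial ℤ) (E : (Fin K → ℕ) → Prop) (η : ℝ), d * K + 1 ≤ z → Sys d z Y X H q → 8 * (K + 1) * PW z ≤ X →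
  ∑ b ∈ AdQ (PW z) q, (((SbQ H b).filter fun s => E s).card : ℝ) / (SbQ H b).card ≤ η * (AdQ (PW z) q).card →
  (((ATQ H q).filter fun s => E s).card : ℝ) ≤ 2 * η * (ATQ H q).card

/-- **WCBQ**: the weighted count and the count. Proof: `vq (q i) n + s i` is in `(H_i, 3 H_i]` for `1 ≤ s_i ≤ H_i`; compare with `Pool/Agent/Q162/LS/WCB.lean`. -/
def S_WCBQ : Prop := ∀ (d z Y X K : ℕ) (H : Fin K → ℕ) (q : Fin K → Polynomial ℤ) (s : Fin K → ℕ), 3 ≤ X → Sys d z Y X H q → (∀ i, s i ∈ Icc 1 (H i)) →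
  (cntQ Y q s : ℝ) * ∏ i, Real.log (H i) ≤ wcQ Y q s ∧ wcQ Y q s ≤ cntQ Y q s * ∏ i, Real.log (3 * H i)

/-- **CCB** (Mertens): `CC C (PW z) ≤ exp (C ∑_{p ≤ z} 1/p) ≤ (log z)^N`. -/
def S_CCB : Prop := ∀ C : ℝ, 0 < C → ∃ (N z₀ : ℕ), ∀ z : ℕ, z₀ ≤ z → 1 ≤ CC C (PW z) ∧ CC C (PW z) ≤ Real.log z ^ N

/-- **ANQ** (the analytic input at all scales between `X` and `z X`; adapt `anL` in `Pool/Agent/Q145/LS/An.lean`). Proof. As there: `key` holds for every `Z` with `X ≤ Z ≤ z X` in place of `g X` (the only facts used: `log X ≤ log Z ≤ 2 log X`, `log log X ≤ log log Z ≤ 2 log log X`, cf. `scale`; for `T`: `log Z ≤ log X + log z ≤ 1.3 log X`, so `6 √(log Z) ≤ 7 √(log X)`); then `eq` and `hh2` as there. The ingredients `ms'`, `t_EQ2`, `h2'` are in `LS/All.lean` and `Pool/Agent/Q162/LS/EQ2.lean`. -/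
def S_ANQ : Prop := ∀ A : ℕ, ∃ (B : ℕ) (C₀ : ℝ), 1 ≤ B ∧ 64 ≤ C₀ ∧
    ∀ (z X : ℕ) (ω T : ℝ), C₀ ≤ Real.log (Real.log X) → C₀ * Real.log (Real.log X) ≤ z → C₀ * z * Real.log (Real.log X) ≤ Real.log X →
      0 < ω → ω ≤ 1 / 4 → C₀ * Real.log (Real.log X) ≤ ω * Real.log X → 0 < T → 120 * B * z ≤ Real.log T → 7 * √(Real.log X) ≤ Real.log T →
      ZF (PW z ^ B) ω T → ∀ Z : ℕ, X ≤ Z → Z ≤ z * X →
      (∀ N ∈ Ioc Z (2 * Z), ∑ β ∈ Us (N : ZMod (PW z)) (N : ZMod (PW z)), (A1 Z N β - vv (PW z)) ^ 2 ≤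
        8 * (1 / Real.log Z ^ A + ((PW z : ℝ) / Z) ^ 2) * vv (PW z) ^ 2 * (Us (N : ZMod (PW z)) (N : ZMod (PW z))).card) ∧ H2p A z Z

end Pool.Agent.Q145.LQ
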