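import Pool.Agent.Q145.LQ.Num

/-!
# Project LQ: the variance
-/

set_option autoImplicit false

namespace Pool.Agent.Q145.LQ

open Finset Filter
open Pool.Agent.Q145.SZ

open Classical in
/-- conclusion of `S_HSQ` -/
def S_HSQ' : Prop := ∀ d : ℕ, ∃ (C z₀ : ℕ), 1 ≤ C ∧ ∀ (z Y X K r : ℕ) (H : Fin K → ℕ) (q : Fin K → Polynomial ℤ), z₀ ≤ z → r ≤ 2 → 32 * K ≤ z → Sys d z Y X H q → Y ≤ X →
  (PW z : ℝ) ^ 2 * Real.log ((z : ℝ) * X) ^ (C * (K + 1)) ≤ Y → ∀ c e : ZMod (PW z),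
  ∑ n ∈ (Ioc Y (2 * Y)).filter (fun n : ℕ => (n : ZMod (PW z)) = c),
    ∑ m ∈ (Ioc Y (2 * Y)).filter (fun m : ℕ => (m : ZMod (PW z)) = e ∧ okp q n m), ∏ i, SP z (H i) (dst (vq (q i) n) (vq (q i) m)) ^ r ≤ ((Y : ℝ) / PW z) ^ 2 * (1 + C / Real.log z)

/-- the pair correlations at scale `X` for all differences outside `D` -/
def H2D (A z X : ℕ) (D : Finset ℕ) : Prop :=
    ∀ n ∈ Ioc X (2 * X), ∀ m ∈ Ioc X (2 * X), 5 * X < 4 * n → 5 * X < 4 * m → n ≠ m → dst n m ∉ D →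
      ∑ β ∈ Us (n : ZMod (PW z)) (m : ZMod (PW z)), (B2 X n m β - vv (PW z) ^ 2 * SP z X (dst n m)) ^ 2 ≤
        (1 / Real.log X ^ A * vv (PW z) ^ 2 * SP z X (dst n m)) ^ 2 * (Us (n : ZMod (PW z)) (m : ZMod (PW z))).card

/-- the first moments at the scale `Z` -/
def H1Q (A z Z : ℕ) : Prop := ∀ N ∈ Ioc Z (2 * Z), ∑ β ∈ Us (N : ZMod (PW z)) (N : ZMod (PW z)), (A1 Z N β - vv (PW z)) ^ 2 ≤
    8 * (1 / Real.log Z ^ A + ((PW z : ℝ) / Z) ^ 2) * vv (PW z) ^ 2 * (Us (N : ZMod (PW z)) (N : ZMod (PW z))).card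

/-- pairs with an exceptional difference -/
def exq {K : ℕ} (Y : ℕ) (q : Fin K → Polynomial ℤ) (D : Fin K → Finset ℕ) : Finset (ℕ × ℕ) :=
  ((Ioc Y (2 * Y)) ×ˢ (Ioc Y (2 * Y))).filter fun x : ℕ × ℕ => ∃ i, dst (vq (q i) x.1) (vq (q i) x.2) ∈ D i

lemma cast_vq {W : ℕ} (q : Polynomial ℤ) (n : ℕ) (h : 0 ≤ q.eval (n : ℤ)) : ((vq q n : ℕ) : ZMod W) = ev q (n : ZMod W) := by
  have h1 : ((vq q n : ℕ) : ℤ) = q.eval (n : ℤ) := Int.toNat_of_nonneg h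
  have h2 : ((vq q n : ℕ) : ZMod W) = (((vq q n : ℕ) : ℤ) : ZMod W) := by push_cast; rfl
  rw [h2, h1]
  unfold ev
  rw [Polynomial.aeval_def]
  have : (n : ZMod W) = (algebraMap ℤ (ZMod W)) (n : ℤ) := by simp
  rw [this, Polynomial.eval₂_at_apply]
  simp

lemma Sys.nonneg {d z Y X K : ℕ} {H : Fin K → ℕ} {q : Fin K → Polynomial ℤ} (h : Sys d z Y X H q) (i : Fin K) {n : ℕ} (hn : n ∈ Ioc Y (2 * Y)) :
    0 ≤ (q i).eval (n : ℤ) := by
  have := (h.val i n hn).1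
  have h2 : (0 : ℤ) ≤ H i := by positivity
  linarith

lemma Sys.mem {d z Y X K : ℕ} {H : Fin K → ℕ} {q : Fin K → Polynomial ℤ} (h : Sys d z Y X H q) (i : Fin K) {n : ℕ} (hn : n ∈ Ioc Y (2 * Y)) :
    vq (q i) n ∈ Ioc (H i) (2 * H i) ∧ 5 * H i < 4 * vq (q i) n := by
  have h1 := h.val i n hn
  have h0 := h.nonneg i hn
  have e : ((vq (q i) n : ℕ) : ℤ) = (q i).eval (n : ℤ) := Int.toNat_of_nonneg h0
  rw [← e] at h1
  rw [mem_Ioc]
  omega

lemma B2_triv {W : ℕ} [NeZero W] {X n m : ℕ} (hX : 3 ≤ X) (hn : n ∈ Ioc X (2 * X)) (hm : m ∈ Ioc X (2 * X)) (β : ZMod W) :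
    B2 X n m β ≤ 4 * Real.log X ^ 2 := by
  have hL : 0 ≤ Real.log X := Real.log_natCast_nonneg X
  unfold B2
  apply div_le_of_le_mul₀ (by positivity) (by positivity)
  calc ∑ s ∈ cls X β, wt (n + s) * wt (m + s) ≤ ∑ _s ∈ cls X β, 4 * Real.log X ^ 2 := by
        apply sum_le_sum
        intro s hs
        unfold cls at hs
        rw [mem_filter, mem_Icc] at hs
        rw [mem_Ioc] at hn hm
        have h := wt_le hX (u := n + s) (by omega)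
        have h' := wt_le hX (u := m + s) (by omega)
        have h0 := wt_nonneg (n + s)
        have h0' := wt_nonneg (m + s)
        nlinarith
    _ = 4 * Real.log X ^ 2 * (cls X β).card := by rw [sum_const, nsmul_eq_mul]; ring

lemma split_sqQ {z Y K : ℕ} (H : Fin K → ℕ) (q : Fin K → Polynomial ℤ) :
    ∑ b ∈ AdQ (PW z) q, (∑ s ∈ SbQ H b, (wcQ Y q s / MbQ Y q b - 1) ^ 2) / ((SbQ H b).card : ℝ) ≤
      ∑ b ∈ AdQ (PW z) q, (∑ s ∈ SbQ H b, (wcQ Y q s / MbQ Y q b) ^ 2) / ((SbQ H b).card : ℝ)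
        - 2 * ∑ b ∈ AdQ (PW z) q, (∑ s ∈ SbQ H b, wcQ Y q s / MbQ Y q b) / ((SbQ H b).card : ℝ) + ((AdQ (PW z) q).card : ℝ) := by
  rw [mul_sum, ← sum_sub_distrib, card_eq_sum_ones, Nat.cast_sum, ← sum_add_distrib]
  apply sum_le_sum
  intro b _
  have h : ∑ s ∈ SbQ H b, (wcQ Y q s / MbQ Y q b - 1) ^ 2 =
      ∑ s ∈ SbQ H b, (wcQ Y q s / MbQ Y q b) ^ 2 - 2 * ∑ s ∈ SbQ H b, wcQ Y q s / MbQ Y q b + ((SbQ H b).card : ℝ) := by
    rw [mul_sum, ← sum_sub_distrib, card_eq_sum_ones, Nat.cast_sum, ← sum_add_distrib]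
    refine sum_congr rfl fun s _ => ?_
    push_cast; ring
  rw [h, add_div, sub_div, mul_div_assoc]
  have : ((SbQ H b).card : ℝ) / (SbQ H b).card ≤ 1 := div_self_le_one _
  push_cast
  linarith

/-- logarithms at the scales between `X` and `z X` -/
lemma scaleQ {z X Z : ℕ} (hl : 64 ≤ Real.log (Real.log X)) (hz : 64 * Real.log (Real.log X) ≤ z) (hzL : 64 * z * Real.log (Real.log X) ≤ Real.log X)
    (h1 : X ≤ Z) (h2 : Z ≤ z * X) : Real.log X ≤ Real.log Z ∧ Real.log Z ≤ 2 * Real.log X ∧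
      Real.log (Real.log X) ≤ Real.log (Real.log Z) ∧ Real.log (Real.log Z) ≤ 2 * Real.log (Real.log X) := by
  obtain ⟨hL0, hLM, hzM, hzL', hzl, hXe, hLe, hl1, hlL⟩ := elem (C := 64) (M := 64) le_rfl (by norm_num) hl hz hzL
  set L := Real.log X with hL
  set l := Real.log L with hl'
  have hX0 : (0 : ℝ) < X := by rw [hXe]; exact Real.exp_pos _
  have hz0 : (0 : ℝ) < z := by linarith
  have hZ : (X : ℝ) ≤ Z := by exact_mod_cast h1
  have hZ' : (Z : ℝ) ≤ z * X := by exact_mod_cast h2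
  have h3 : Real.log ((z : ℝ) * X) = Real.log z + L := Real.log_mul hz0.ne' hX0.ne'
  have h4 : Real.log z ≤ z := (Real.log_le_sub_one_of_pos hz0).trans (by linarith)
  have h5 : Real.log Z ≤ 2 * L := by
    have := Real.log_le_log (by linarith) hZ'
    linarith
  have h6 : L ≤ Real.log Z := Real.log_le_log hX0 hZ
  refine ⟨h6, h5, Real.log_le_log hL0 h6, ?_⟩
  have h7 := Real.log_le_log (by linarith) h5
  rw [Real.log_mul (by norm_num) hL0.ne'] at h7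
  have h8 : Real.log 2 ≤ 1 := by
    have := Real.log_le_sub_one_of_pos (by norm_num : (0 : ℝ) < 2)
    linarith
  linarith

end Pool.Agent.Q145.LQ
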